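import Pool.Agent.L0h51.HG.Vol

/-!
# A bound for the area integral of an elliptic curve

`∫ d²x / |(x - u) (x - v) (x - w)| ≤ 24 π (16 / D) ^ (1/3)` with `D = |u - v| |u - w| |v - w|`.
-/

set_option autoImplicit false

namespace Pool.Agent.L0h51.HG

open MeasureTheory Set ENNReal

/-- a radial majorant -/
noncomputable def G (p q y : ℝ) : ℝ :=
  if y ≤ q then p ^ (-(1 / 3) : ℝ) * q⁻¹ * y ^ (-(2 / 3) : ℝ) else y ^ (-2 : ℝ)

theorem G_nonneg {p q y : ℝ} (hp : 0 < p) (hq : 0 < q) (hy : 0 ≤ y) : 0 ≤ G p q y := by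
  unfold G
  split_ifs <;> positivity

theorem G_int {p q : ℝ} (hq : 0 < q) :
    IntegrableOn (G p q) (Ioi 0) ∧ ∫ y in Ioi (0 : ℝ), G p q y =
      3 * p ^ (-(1 / 3) : ℝ) * q ^ (-(2 / 3) : ℝ) + q⁻¹ := by
  have hsplit : Ioi (0 : ℝ) = Ioc 0 q ∪ Ioi q := (Ioc_union_Ioi_eq_Ioi hq.le).symm
  have h1 : IntegrableOn (fun y : ℝ => p ^ (-(1 / 3) : ℝ) * q⁻¹ * y ^ (-(2 / 3) : ℝ)) (Ioc 0 q) := by
    have := (intervalIntegral.intervalIntegrable_rpow' (a := 0) (b := q) (r := -(2 / 3))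
      (by norm_num)).const_mul (p ^ (-(1 / 3) : ℝ) * q⁻¹)
    rwa [intervalIntegrable_iff_integrableOn_Ioc_of_le hq.le] at this
  have h2 : IntegrableOn (fun y : ℝ => y ^ (-2 : ℝ)) (Ioi q) :=
    integrableOn_Ioi_rpow_of_lt (by norm_num) hq
  have e1 : EqOn (fun y : ℝ => p ^ (-(1 / 3) : ℝ) * q⁻¹ * y ^ (-(2 / 3) : ℝ)) (G p q) (Ioc 0 q) := by
    intro y hy
    simp [G, hy.2]
  have e2 : EqOn (fun y : ℝ => y ^ (-2 : ℝ)) (G p q) (Ioi q) := by
    intro y hy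
    simp only [G, if_neg (not_le.2 (mem_Ioi.1 hy))]
  have h1' := h1.congr_fun e1 measurableSet_Ioc
  have h2' := h2.congr_fun e2 measurableSet_Ioi
  refine ⟨by rw [hsplit]; exact h1'.union h2', ?_⟩
  rw [hsplit, setIntegral_union (Ioc_disjoint_Ioi le_rfl) measurableSet_Ioi h1' h2',
    ← setIntegral_congr_fun measurableSet_Ioc e1, ← setIntegral_congr_fun measurableSet_Ioi e2,
    integral_Ioi_rpow_of_lt (by norm_num) hq, ← intervalIntegral.integral_of_le hq.le,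
    intervalIntegral.integral_const_mul, integral_rpow (Or.inl (by norm_num))]
  have e3 : (0 : ℝ) ^ (-(2 / 3) + 1 : ℝ) = 0 := by
    rw [Real.zero_rpow]
    norm_num
  have e4 : q ^ (-(2 / 3) + 1 : ℝ) = q ^ (-(2 / 3) : ℝ) * q := by
    rw [Real.rpow_add hq, Real.rpow_one]
  have e5 : q ^ (-2 + 1 : ℝ) = q⁻¹ := by
    rw [← Real.rpow_neg_one]
    norm_num
  rw [e3, e4, e5]
  field_simp
  ring

/-- the majorant at a point -/
noncomputable def Hm (p q r : ℝ) : ℝ := G p q r / r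

theorem Hm_nonneg {p q r : ℝ} (hp : 0 < p) (hq : 0 < q) (hr : 0 ≤ r) : 0 ≤ Hm p q r :=
  div_nonneg (G_nonneg hp hq hr) hr

theorem Hm_int {p q : ℝ} (hp : 0 < p) (hpq : p ≤ q) :
    Integrable (fun x : ℂ => Hm p q ‖x‖) ∧ ∫ x : ℂ, Hm p q ‖x‖ ≤
      8 * Real.pi * (p ^ (-(1 / 3) : ℝ) * q ^ (-(2 / 3) : ℝ)) := by
  have hq : 0 < q := hp.trans_le hpq
  have hdim : Module.finrank ℝ ℂ = 2 := Complex.finrank_real_complex
  have e1 : EqOn (G p q) (fun y : ℝ => y ^ (Module.finrank ℝ ℂ - 1) • Hm p q y) (Ioi 0) := by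
    intro y hy
    have hy0 : (y : ℝ) ≠ 0 := ne_of_gt (mem_Ioi.1 hy)
    rw [hdim]
    show G p q y = y ^ (2 - 1) * (G p q y / y)
    rw [show 2 - 1 = 1 by norm_num, pow_one]
    field_simp
  obtain ⟨g1, g2⟩ := G_int (p := p) hq
  refine ⟨(integrable_fun_norm_addHaar volume).2 (g1.congr_fun e1 measurableSet_Ioi), ?_⟩
  rw [integral_fun_norm_addHaar volume (Hm p q), ← setIntegral_congr_fun measurableSet_Ioi e1, g2,
    hdim]
  have hball : (volume : Measure ℂ).real (Metric.ball 0 1) = Real.pi := by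
    rw [Measure.real, Complex.volume_ball]
    simp
  rw [hball, smul_eq_mul, nsmul_eq_mul]
  have h3 : q⁻¹ ≤ p ^ (-(1 / 3) : ℝ) * q ^ (-(2 / 3) : ℝ) := by
    have h4 : q⁻¹ = q ^ (-(1 / 3) : ℝ) * q ^ (-(2 / 3) : ℝ) := by
      rw [← Real.rpow_add hq, ← Real.rpow_neg_one]
      norm_num
    rw [h4]
    refine mul_le_mul_of_nonneg_right ?_ (by positivity)
    exact Real.rpow_le_rpow_of_nonpos hp hpq (by norm_num)
  have hpi := Real.pi_pos
  push_cast
  nlinarith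

/-- the majorant dominates -/
theorem Hm_dom {p q r s t : ℝ} (hp : 0 < p) (hpq : p ≤ q) (hr : 0 < r) (hs : p ≤ s) (hrs : r ≤ s)
    (ht : q ≤ t) (hrt : r ≤ t) : 1 / (r * s * t) ≤ Hm p q r := by
  have hq : 0 < q := hp.trans_le hpq
  have hs0 : 0 < s := hr.trans_le hrs
  have ht0 : 0 < t := hr.trans_le hrt
  have h0 : 1 / (r * s * t) = (1 / (s * t)) / r := by field_simp
  rw [h0]
  unfold Hm
  refine div_le_div_of_nonneg_right ?_ hr.le
  unfold G
  split_ifs with h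
  · have h1 : s⁻¹ ≤ p ^ (-(1 / 3) : ℝ) * r ^ (-(2 / 3) : ℝ) := by
      have h2 : s⁻¹ = s ^ (-(1 / 3) : ℝ) * s ^ (-(2 / 3) : ℝ) := by
        rw [← Real.rpow_add hs0, ← Real.rpow_neg_one]
        norm_num
      rw [h2]
      refine mul_le_mul (Real.rpow_le_rpow_of_nonpos hp hs (by norm_num))
        (Real.rpow_le_rpow_of_nonpos hr hrs (by norm_num)) (by positivity) (by positivity)
    have h3 : t⁻¹ ≤ q⁻¹ := inv_anti₀ hq ht
    calc 1 / (s * t) = s⁻¹ * t⁻¹ := by rw [one_div, mul_inv]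
      _ ≤ (p ^ (-(1 / 3) : ℝ) * r ^ (-(2 / 3) : ℝ)) * q⁻¹ :=
        mul_le_mul h1 h3 (by positivity) (by positivity)
      _ = _ := by ring
  · have h1 : r ^ (-2 : ℝ) = 1 / (r * r) := by
      rw [Real.rpow_neg hr.le, show (2 : ℝ) = ((2 : ℕ) : ℝ) by norm_num, Real.rpow_natCast]
      rw [one_div]
      congr 1
      ring
    rw [h1]
    exact one_div_le_one_div_of_le (by positivity) (mul_le_mul hrs hrt hr.le hs0.le)


/-- the two half distances of a point -/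
theorem pq_bound {d e t : ℝ} (hd : 0 < d) (he : 0 < e) (ht : 0 < t) (h : t ≤ d + e) :
    (min d e / 2) ^ (-(1 / 3) : ℝ) * (max d e / 2) ^ (-(2 / 3) : ℝ) ≤
      (16 / (d * e * t)) ^ ((1 / 3) : ℝ) := by
  have hp : 0 < min d e / 2 := by positivity
  have hq : 0 < max d e / 2 := by positivity
  have h1 : (max d e / 2) ^ (-(2 / 3) : ℝ) = ((max d e / 2) ^ 2) ^ (-(1 / 3) : ℝ) := by
    rw [← Real.rpow_natCast, ← Real.rpow_mul hq.le]
    norm_num
  rw [h1, ← Real.mul_rpow hp.le (by positivity)]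
  have h2 : (16 / (d * e * t)) ^ ((1 / 3) : ℝ) = (d * e * t / 16) ^ (-(1 / 3) : ℝ) := by
    rw [Real.rpow_neg (by positivity), ← Real.inv_rpow (by positivity), inv_div]
  rw [h2]
  refine Real.rpow_le_rpow_of_nonpos (by positivity) ?_ (by norm_num)
  have h3 : min d e * max d e = d * e := min_mul_max d e
  have h4 : t ≤ 2 * max d e := by
    have := le_max_left d e
    have := le_max_right d e
    linarith
  have h5 : min d e / 2 * (max d e / 2) ^ 2 = (d * e) * max d e / 8 := by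
    rw [← h3]
    ring
  rw [h5]
  have h6 : 0 < d * e := by positivity
  nlinarith

/-- the bound for three points -/
theorem tri_bound {u v w : ℂ} (huv : u ≠ v) (huw : u ≠ w) (hvw : v ≠ w) :
    ∫⁻ x : ℂ, ENNReal.ofReal (1 / (‖x - u‖ * ‖x - v‖ * ‖x - w‖)) ≤
      ENNReal.ofReal (24 * Real.pi * (16 / (‖u - v‖ * ‖u - w‖ * ‖v - w‖)) ^ ((1 / 3) : ℝ)) := by
  have d1 : 0 < ‖u - v‖ := norm_pos_iff.2 (sub_ne_zero.2 huv)
  have d2 : 0 < ‖u - w‖ := norm_pos_iff.2 (sub_ne_zero.2 huw)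
  have d3 : 0 < ‖v - w‖ := norm_pos_iff.2 (sub_ne_zero.2 hvw)
  set K : ℝ := (16 / (‖u - v‖ * ‖u - w‖ * ‖v - w‖)) ^ ((1 / 3) : ℝ) with hK
  -- the three majorants
  have gen : ∀ (z : ℂ) (d e : ℝ), 0 < d → 0 < e →
      (min d e / 2) ^ (-(1 / 3) : ℝ) * (max d e / 2) ^ (-(2 / 3) : ℝ) ≤ K →
      ∫⁻ x : ℂ, ENNReal.ofReal (Hm (min d e / 2) (max d e / 2) ‖x - z‖) ≤
        ENNReal.ofReal (8 * Real.pi * K) := by
    intro z d e hd he hle
    have hp : 0 < min d e / 2 := by positivity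
    have hpq : min d e / 2 ≤ max d e / 2 := by
      have : min d e ≤ max d e := min_le_max
      linarith
    obtain ⟨i1, i2⟩ := Hm_int hp hpq
    have h1 : ∫⁻ x : ℂ, ENNReal.ofReal (Hm (min d e / 2) (max d e / 2) ‖x - z‖) =
        ∫⁻ x : ℂ, ENNReal.ofReal (Hm (min d e / 2) (max d e / 2) ‖x‖) :=
      lintegral_sub_right_eq_self
        (fun x : ℂ => ENNReal.ofReal (Hm (min d e / 2) (max d e / 2) ‖x‖)) z
    rw [h1, ← ofReal_integral_eq_lintegral_ofReal i1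
      (Filter.Eventually.of_forall fun x => Hm_nonneg hp (hp.trans_le hpq) (norm_nonneg x))]
    refine ENNReal.ofReal_le_ofReal (i2.trans ?_)
    exact mul_le_mul_of_nonneg_left hle (by positivity)
  have t1 : ‖v - w‖ ≤ ‖u - v‖ + ‖u - w‖ := by
    have : v - w = (u - w) - (u - v) := by ring
    rw [this]
    linarith [norm_sub_le (u - w) (u - v)]
  have t2 : ‖u - w‖ ≤ ‖u - v‖ + ‖v - w‖ := by
    have : u - w = (u - v) + (v - w) := by ring
    rw [this]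
    exact norm_add_le _ _
  have t3 : ‖u - v‖ ≤ ‖u - w‖ + ‖v - w‖ := by
    have : u - v = (u - w) - (v - w) := by ring
    rw [this]
    exact norm_sub_le _ _
  have b1 := gen u ‖u - v‖ ‖u - w‖ d1 d2 (pq_bound d1 d2 d3 t1)
  have b2 := gen v ‖u - v‖ ‖v - w‖ d1 d3 (by
    have := pq_bound d1 d3 d2 t2
    rwa [show ‖u - v‖ * ‖v - w‖ * ‖u - w‖ = ‖u - v‖ * ‖u - w‖ * ‖v - w‖ by ring] at this)
  have b3 := gen w ‖u - w‖ ‖v - w‖ d2 d3 (by
    have := pq_bound d2 d3 d1 t3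
    rwa [show ‖u - w‖ * ‖v - w‖ * ‖u - v‖ = ‖u - v‖ * ‖u - w‖ * ‖v - w‖ by ring] at this)
  -- domination at the nearest point
  have dom : ∀ (r s t d e : ℝ), 0 < d → 0 < e → 0 < r → r ≤ s → r ≤ t → d ≤ r + s → e ≤ r + t →
      1 / (r * s * t) ≤ Hm (min d e / 2) (max d e / 2) r := by
    intro r s t d e hd he hr hrs hrt h1 h2
    have hp : 0 < min d e / 2 := by positivity
    have hpq : min d e / 2 ≤ max d e / 2 := by
      have : min d e ≤ max d e := min_le_max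
      linarith
    rcases le_total d e with hde | hde
    · rw [min_eq_left hde, max_eq_right hde] at *
      exact Hm_dom hp hpq hr (by linarith) hrs (by linarith) hrt
    · rw [min_eq_right hde, max_eq_left hde] at *
      have := Hm_dom (s := t) (t := s) hp hpq hr (by linarith) hrt (by linarith) hrs
      rwa [show r * s * t = r * t * s by ring]
  have pt : ∀ x : ℂ, 1 / (‖x - u‖ * ‖x - v‖ * ‖x - w‖) ≤
      Hm (min ‖u - v‖ ‖u - w‖ / 2) (max ‖u - v‖ ‖u - w‖ / 2) ‖x - u‖ +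
      Hm (min ‖u - v‖ ‖v - w‖ / 2) (max ‖u - v‖ ‖v - w‖ / 2) ‖x - v‖ +
      Hm (min ‖u - w‖ ‖v - w‖ / 2) (max ‖u - w‖ ‖v - w‖ / 2) ‖x - w‖ := by
    intro x
    have n1 : 0 ≤ Hm (min ‖u - v‖ ‖u - w‖ / 2) (max ‖u - v‖ ‖u - w‖ / 2) ‖x - u‖ :=
      Hm_nonneg (by positivity) (by positivity) (norm_nonneg _)
    have n2 : 0 ≤ Hm (min ‖u - v‖ ‖v - w‖ / 2) (max ‖u - v‖ ‖v - w‖ / 2) ‖x - v‖ :=
      Hm_nonneg (by positivity) (by positivity) (norm_nonneg _)
    have n3 : 0 ≤ Hm (min ‖u - w‖ ‖v - w‖ / 2) (max ‖u - w‖ ‖v - w‖ / 2) ‖x - w‖ :=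
      Hm_nonneg (by positivity) (by positivity) (norm_nonneg _)
    have a1 : ‖u - v‖ ≤ ‖x - u‖ + ‖x - v‖ := by
      have : u - v = (x - v) - (x - u) := by ring
      rw [this]
      linarith [norm_sub_le (x - v) (x - u)]
    have a2 : ‖u - w‖ ≤ ‖x - u‖ + ‖x - w‖ := by
      have : u - w = (x - w) - (x - u) := by ring
      rw [this]
      linarith [norm_sub_le (x - w) (x - u)]
    have a3 : ‖v - w‖ ≤ ‖x - v‖ + ‖x - w‖ := by
      have : v - w = (x - w) - (x - v) := by ring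
      rw [this]
      linarith [norm_sub_le (x - w) (x - v)]
    by_cases z1 : ‖x - u‖ = 0
    · rw [z1]
      rw [z1] at n1
      simp only [zero_mul]
      linarith
    by_cases z2 : ‖x - v‖ = 0
    · rw [z2]
      rw [z2] at n2
      simp only [zero_mul, mul_zero]
      linarith
    by_cases z3 : ‖x - w‖ = 0
    · rw [z3]
      rw [z3] at n3
      simp only [mul_zero]
      linarith
    have p1 : 0 < ‖x - u‖ := lt_of_le_of_ne (norm_nonneg _) (Ne.symm z1)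
    have p2 : 0 < ‖x - v‖ := lt_of_le_of_ne (norm_nonneg _) (Ne.symm z2)
    have p3 : 0 < ‖x - w‖ := lt_of_le_of_ne (norm_nonneg _) (Ne.symm z3)
    rcases le_total ‖x - u‖ ‖x - v‖ with h1 | h1
    · rcases le_total ‖x - u‖ ‖x - w‖ with h2 | h2
      · have := dom ‖x - u‖ ‖x - v‖ ‖x - w‖ _ _ d1 d2 p1 h1 h2 a1 a2
        linarith
      · have := dom ‖x - w‖ ‖x - u‖ ‖x - v‖ _ _ d2 d3 p3 h2 (h2.trans h1) (by linarith) (by linarith)
        rw [show ‖x - w‖ * ‖x - u‖ * ‖x - v‖ = ‖x - u‖ * ‖x - v‖ * ‖x - w‖ by ring] at this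
        linarith
    · rcases le_total ‖x - v‖ ‖x - w‖ with h2 | h2
      · have := dom ‖x - v‖ ‖x - u‖ ‖x - w‖ _ _ d1 d3 p2 h1 h2 (by linarith) (by linarith)
        rw [show ‖x - v‖ * ‖x - u‖ * ‖x - w‖ = ‖x - u‖ * ‖x - v‖ * ‖x - w‖ by ring] at this
        linarith
      · have := dom ‖x - w‖ ‖x - u‖ ‖x - v‖ _ _ d2 d3 p3 (h2.trans h1) h2 (by linarith) (by linarith)
        rw [show ‖x - w‖ * ‖x - u‖ * ‖x - v‖ = ‖x - u‖ * ‖x - v‖ * ‖x - w‖ by ring] at this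
        linarith
  have hmeas : ∀ (p q : ℝ) (z : ℂ), 0 < p → p ≤ q → AEMeasurable
      (fun x : ℂ => ENNReal.ofReal (Hm p q ‖x - z‖)) := by
    intro p q z hp hpq
    have := (Hm_int hp hpq).1
    exact ((this.comp_sub_right z).aestronglyMeasurable.aemeasurable).ennreal_ofReal
  calc ∫⁻ x : ℂ, ENNReal.ofReal (1 / (‖x - u‖ * ‖x - v‖ * ‖x - w‖))
      ≤ ∫⁻ x : ℂ, (ENNReal.ofReal (Hm (min ‖u - v‖ ‖u - w‖ / 2) (max ‖u - v‖ ‖u - w‖ / 2) ‖x - u‖) +
        ENNReal.ofReal (Hm (min ‖u - v‖ ‖v - w‖ / 2) (max ‖u - v‖ ‖v - w‖ / 2) ‖x - v‖)) +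
        ENNReal.ofReal (Hm (min ‖u - w‖ ‖v - w‖ / 2) (max ‖u - w‖ ‖v - w‖ / 2) ‖x - w‖) := by
        refine lintegral_mono fun x => ?_
        rw [← ENNReal.ofReal_add (Hm_nonneg (by positivity) (by positivity) (norm_nonneg _))
          (Hm_nonneg (by positivity) (by positivity) (norm_nonneg _)),
          ← ENNReal.ofReal_add (add_nonneg (Hm_nonneg (by positivity) (by positivity) (norm_nonneg _))
          (Hm_nonneg (by positivity) (by positivity) (norm_nonneg _)))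
          (Hm_nonneg (by positivity) (by positivity) (norm_nonneg _))]
        exact ENNReal.ofReal_le_ofReal (pt x)
    _ = _ := by
        rw [lintegral_add_right' _ (hmeas _ _ _ (by positivity) (by
          have : min ‖u - w‖ ‖v - w‖ ≤ max ‖u - w‖ ‖v - w‖ := min_le_max
          linarith)), lintegral_add_right' _ (hmeas _ _ _ (by positivity) (by
          have : min ‖u - v‖ ‖v - w‖ ≤ max ‖u - v‖ ‖v - w‖ := min_le_max
          linarith))]
    _ ≤ ENNReal.ofReal (8 * Real.pi * K) + ENNReal.ofReal (8 * Real.pi * K) +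
        ENNReal.ofReal (8 * Real.pi * K) := by gcongr
    _ = _ := by
        have hK0 : 0 ≤ K := by positivity
        rw [← ENNReal.ofReal_add (by positivity) (by positivity),
          ← ENNReal.ofReal_add (by positivity) (by positivity)]
        congr 1
        ring

/-- the roots -/
theorem roots (a b : ℂ) : ∃ v w : ℂ, v + w = -a ∧ v * w = b ∧ (v - w) ^ 2 = a ^ 2 - 4 * b := by
  obtain ⟨s, hs⟩ := IsAlgClosed.exists_pow_nat_eq (a ^ 2 - 4 * b) (n := 2) (by norm_num)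
  refine ⟨(-a + s) / 2, (-a - s) / 2, by ring, ?_, ?_⟩
  · linear_combination (-1 / 4 : ℂ) * hs
  · linear_combination hs

variable {a b : ℂ}

theorem J_le (hb : b ≠ 0) (hab : a ^ 2 - 4 * b ≠ 0) :
    J a b ≤ ENNReal.ofReal (24 * Real.pi *
      (256 / (‖b‖ ^ 2 * ‖a ^ 2 - 4 * b‖)) ^ ((1 / 6) : ℝ)) := by
  obtain ⟨v, w, h1, h2, h3⟩ := roots a b
  have hv : (0 : ℂ) ≠ v := by
    rintro rfl
    exact hb (by rw [← h2]; ring)
  have hw : (0 : ℂ) ≠ w := by
    rintro rfl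
    exact hb (by rw [← h2]; ring)
  have hvw : v ≠ w := by
    rintro rfl
    exact hab (by rw [← h3]; ring)
  have h4 := tri_bound hv hw hvw
  have e1 : J a b = ∫⁻ x : ℂ, ENNReal.ofReal (1 / (‖x - 0‖ * ‖x - v‖ * ‖x - w‖)) := by
    unfold J
    refine lintegral_congr fun x => ?_
    congr 2
    rw [← norm_mul, ← norm_mul]
    congr 1
    have ha : a = -(v + w) := by rw [h1]; ring
    rw [ha, ← h2]
    ring
  rw [e1]
  refine h4.trans (ENNReal.ofReal_le_ofReal ?_)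
  refine mul_le_mul_of_nonneg_left (le_of_eq ?_) (by positivity)
  have d1 : 0 < ‖(0 : ℂ) - v‖ * ‖(0 : ℂ) - w‖ * ‖v - w‖ := by
    have e1 := norm_pos_iff.2 (sub_ne_zero.2 hv)
    have e2 := norm_pos_iff.2 (sub_ne_zero.2 hw)
    have e3 := norm_pos_iff.2 (sub_ne_zero.2 hvw)
    positivity
  have e2 : 256 / (‖b‖ ^ 2 * ‖a ^ 2 - 4 * b‖) =
      (16 / (‖(0 : ℂ) - v‖ * ‖(0 : ℂ) - w‖ * ‖v - w‖)) ^ 2 := by
    rw [← h3, ← h2, norm_mul, norm_pow, zero_sub, zero_sub, norm_neg, norm_neg, div_pow]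
    congr 1
    · norm_num
    · ring
  rw [e2, ← Real.rpow_natCast, ← Real.rpow_mul (by positivity)]
  norm_num

theorem J_ne_top (hb : b ≠ 0) (hab : a ^ 2 - 4 * b ≠ 0) : J a b ≠ ∞ :=
  ((J_le hb hab).trans_lt ENNReal.ofReal_lt_top).ne

theorem J_pos (a b : ℂ) : J a b ≠ 0 := by
  unfold J
  rw [← pos_iff_ne_zero, lintegral_pos_iff_support (by fun_prop)]
  have h1 : Function.support (fun x : ℂ => ENNReal.ofReal (1 / ‖x * (x ^ 2 + a * x + b)‖)) =
      {x : ℂ | x * (x ^ 2 + a * x + b) ≠ 0} := by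
    ext x
    rw [Function.mem_support]
    constructor
    · intro h hx
      apply h
      rw [hx]
      simp
    · intro h
      have : 0 < ‖x * (x ^ 2 + a * x + b)‖ := norm_pos_iff.2 h
      have h2 : 0 < ENNReal.ofReal (1 / ‖x * (x ^ 2 + a * x + b)‖) :=
        ENNReal.ofReal_pos.2 (by positivity)
      exact h2.ne'
  rw [h1]
  refine IsOpen.measure_pos volume ?_ ?_
  · exact isOpen_ne_fun (by fun_prop) continuous_const
  · obtain ⟨v, w, h1, h2, -⟩ := roots a b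
    obtain ⟨x, hx⟩ : ∃ x : ℂ, x ∉ ({0, v, w} : Finset ℂ) := Infinite.exists_notMem_finset _
    simp only [Finset.mem_insert, Finset.mem_singleton, not_or] at hx
    refine ⟨x, ?_⟩
    have e : x * (x ^ 2 + a * x + b) = x * ((x - v) * (x - w)) := by
      have ha : a = -(v + w) := by rw [h1]; ring
      rw [ha, ← h2]
      ring
    show x * (x ^ 2 + a * x + b) ≠ 0
    rw [e]
    exact mul_ne_zero hx.1 (mul_ne_zero (sub_ne_zero.2 hx.2.1) (sub_ne_zero.2 hx.2.2))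

/-- the uniform bound of the invariant -/
theorem J_six (hb : b ≠ 0) (hab : a ^ 2 - 4 * b ≠ 0) :
    ‖b‖ ^ 2 * ‖a ^ 2 - 4 * b‖ * (J a b).toReal ^ 6 ≤ 256 * (24 * Real.pi) ^ 6 := by
  have hb0 : 0 < ‖b‖ := norm_pos_iff.2 hb
  have ha0 : 0 < ‖a ^ 2 - 4 * b‖ := norm_pos_iff.2 hab
  set D : ℝ := ‖b‖ ^ 2 * ‖a ^ 2 - 4 * b‖ with hD
  have hD0 : 0 < D := by positivity
  have h1 : (J a b).toReal ≤ 24 * Real.pi * (256 / D) ^ ((1 / 6) : ℝ) := by
    have := ENNReal.toReal_mono ENNReal.ofReal_ne_top (J_le hb hab)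
    rwa [ENNReal.toReal_ofReal (by positivity)] at this
  have h2 : (J a b).toReal ^ 6 ≤ (24 * Real.pi * (256 / D) ^ ((1 / 6) : ℝ)) ^ 6 :=
    pow_le_pow_left₀ ENNReal.toReal_nonneg h1 6
  have h3 : (24 * Real.pi * (256 / D) ^ ((1 / 6) : ℝ)) ^ 6 = (24 * Real.pi) ^ 6 * (256 / D) := by
    rw [mul_pow, ← Real.rpow_natCast ((256 / D) ^ ((1 / 6) : ℝ)), ← Real.rpow_mul (by positivity)]
    norm_num
  rw [h3] at h2
  calc D * (J a b).toReal ^ 6 ≤ D * ((24 * Real.pi) ^ 6 * (256 / D)) :=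
        mul_le_mul_of_nonneg_left h2 hD0.le
    _ = _ := by field_simp

end Pool.Agent.L0h51.HG
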