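import Pool.Agent.L0h51.HG.Tower

/-!
# The tower of étale algebras and the operator summing over both square roots
-/

set_option autoImplicit false

namespace Pool.Agent.L0h51.HG

open Polynomial

section op

variable {K : Type} [Field K] [IsAlgClosed K] [CharZero K]

/-- one step of the tower on functions -/
noncomputable def op (Φ : K → K → ℝ) (a b : K) : ℝ :=
  Φ (a + 6 * rt b) (4 * rt b * (a + 2 * rt b)) + Φ (a + 6 * (-rt b)) (4 * (-rt b) * (a + 2 * (-rt b)))

theorem iter_bounds (P : K → K → Prop)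
    (hP : ∀ a b s, P a b → s ^ 2 = b → P (a + 6 * s) (4 * s * (a + 2 * s)))
    (Φ : K → K → ℝ) (L H : ℕ → K → K → ℝ)
    (h0 : ∀ a b, P a b → L 0 a b ≤ Φ a b ∧ Φ a b ≤ H 0 a b)
    (hL : ∀ k a b s, P a b → s ^ 2 = b → L (k + 1) a b ≤
      L k (a + 6 * s) (4 * s * (a + 2 * s)) + L k (a + 6 * (-s)) (4 * (-s) * (a + 2 * (-s))))
    (hH : ∀ k a b s, P a b → s ^ 2 = b →
      H k (a + 6 * s) (4 * s * (a + 2 * s)) + H k (a + 6 * (-s)) (4 * (-s) * (a + 2 * (-s))) ≤
        H (k + 1) a b) :
    ∀ k a b, P a b → L k a b ≤ (op^[k] Φ) a b ∧ (op^[k] Φ) a b ≤ H k a b := by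
  intro k
  induction k with
  | zero => exact fun a b h => h0 a b h
  | succ k ih =>
    intro a b h
    rw [Function.iterate_succ_apply']
    have h1 := hP a b (rt b) h (rt_sq b)
    have h2 := hP a b (-rt b) h (by rw [neg_sq, rt_sq])
    have h3 := ih _ _ h1
    have h4 := ih _ _ h2
    have h5 := hL k a b (rt b) h (rt_sq b)
    have h6 := hH k a b (rt b) h (rt_sq b)
    unfold op at h3 h4 ⊢
    constructor
    · linarith [h3.1, h4.1]
    · linarith [h3.2, h4.2]

end op

/-- a level of the tower over `A` above `(a, b)` -/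
structure Level (A : Type) [CommRing A] (a b : A) (k : ℕ) where
  /-- the algebra -/
  R : Type
  /-- ring structure -/
  ring : CommRing R
  /-- algebra structure -/
  alg : Algebra A R
  etale : Algebra.Etale A R
  finite : Module.Finite A R
  free : Module.Free A R
  nontriv : Nontrivial R
  rank : Module.finrank A R = 2 ^ k
  /-- the first coefficient -/
  x : R
  /-- the second coefficient -/
  y : R
  unity : IsUnit y
  unitd : IsUnit (x ^ 2 - 4 * y)
  homs : ∀ (K : Type) [Field K] [IsAlgClosed K] [CharZero K], Finite (A →+* K) →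
    Finite (R →+* K) ∧ ∀ Φ : K → K → ℝ,
      ∑ᶠ τ : R →+* K, Φ (τ x) (τ y) = ∑ᶠ σ : A →+* K, (op^[k] Φ) (σ a) (σ b)

theorem next_unit {R : Type} [CommRing R] {x y s : R} (h2 : IsUnit (2 : R)) (hy : IsUnit y)
    (hd : IsUnit (x ^ 2 - 4 * y)) (hs : s ^ 2 = y) :
    IsUnit (4 * s * (x + 2 * s)) ∧ IsUnit ((x + 6 * s) ^ 2 - 4 * (4 * s * (x + 2 * s))) := by
  have h1 : IsUnit s := by
    rw [← hs] at hy
    exact (isUnit_pow_iff (two_ne_zero)).1 hy
  have h3 : x ^ 2 - 4 * y = (x + 2 * s) * (x - 2 * s) := by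
    rw [← hs]
    ring
  rw [h3] at hd
  have h4 := isUnit_of_mul_isUnit_left hd
  have h5 := isUnit_of_mul_isUnit_right hd
  constructor
  · have h6 : (4 : R) = 2 * 2 := by norm_num
    rw [h6]
    exact ((h2.mul h2).mul h1).mul h4
  · have h6 : (x + 6 * s) ^ 2 - 4 * (4 * s * (x + 2 * s)) = (x - 2 * s) ^ 2 := by ring
    rw [h6]
    exact h5.pow 2

/-- the next level of the tower -/
noncomputable def Level.next {A : Type} [CommRing A] {a b : A} {k : ℕ} (h2 : IsUnit (2 : A))
    (T : Level A a b k) : Level A a b (k + 1) :=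
  letI := T.ring
  letI := T.alg
  haveI := T.etale
  haveI := T.finite
  haveI := T.free
  haveI := T.nontriv
  have h2' : IsUnit (2 : T.R) := by
    have := h2.map (algebraMap A T.R)
    rwa [map_ofNat] at this
  haveI e1 : Algebra.Etale T.R (Ad T.y) := etale_step T.y h2' T.unity
  haveI e2 : Module.Finite T.R (Ad T.y) := finite_step T.y
  haveI e3 : Module.Free T.R (Ad T.y) := free_step T.y
  have e4 : Module.finrank T.R (Ad T.y) = 2 := finrank_step T.y
  have e5 : Nontrivial (Ad T.y) := by
    by_contra h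
    rw [not_nontrivial_iff_subsingleton] at h
    rw [Module.finrank_zero_of_subsingleton] at e4
    exact absurd e4 (by norm_num)
  have h2'' : IsUnit (2 : Ad T.y) := by
    have := h2'.map (algebraMap T.R (Ad T.y))
    rwa [map_ofNat] at this
  have h3 : IsUnit (algebraMap T.R (Ad T.y) T.y) := T.unity.map _
  have h4 : IsUnit ((algebraMap T.R (Ad T.y) T.x) ^ 2 - 4 * algebraMap T.R (Ad T.y) T.y) := by
    have := T.unitd.map (algebraMap T.R (Ad T.y))
    rwa [map_sub, map_pow, map_mul, map_ofNat] at this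
  have h5 := next_unit h2'' h3 h4 (sq_sq T.y)
  { R := Ad T.y
    ring := inferInstance
    alg := inferInstance
    etale := Algebra.Etale.comp A T.R (Ad T.y)
    finite := Module.Finite.trans T.R (Ad T.y)
    free := Module.Free.trans (S := T.R)
    nontriv := e5
    rank := by
      have e6 : Nontrivial A := (algebraMap A T.R).domain_nontrivial
      rw [← Module.finrank_mul_finrank A T.R (Ad T.y), T.rank, e4, pow_succ]
    x := algebraMap T.R (Ad T.y) T.x + 6 * sq T.y
    y := 4 * sq T.y * (algebraMap T.R (Ad T.y) T.x + 2 * sq T.y)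
    unity := h5.1
    unitd := h5.2
    homs := by
      intro K _ _ _ hA
      obtain ⟨f1, f2⟩ := T.homs K hA
      obtain ⟨g1, g2⟩ := Pool.Agent.L0h51.HG.homs (K := K) T.unity f1
      refine ⟨g1, fun Φ => ?_⟩
      have h6 := g2 (fun σ t => Φ (σ T.x + 6 * t) (4 * t * (σ T.x + 2 * t)))
      have h7 := f2 (op Φ)
      rw [← Function.iterate_succ_apply] at h7
      rw [← h7]
      refine Eq.trans ?_ h6
      refine finsum_congr fun τ => ?_
      simp only [map_add, map_mul, map_ofNat, RingHom.comp_apply] }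

/-- the bottom level -/
noncomputable def Level.zero {A : Type} [CommRing A] [Nontrivial A] {a b : A} (hb : IsUnit b)
    (hd : IsUnit (a ^ 2 - 4 * b)) : Level A a b 0 where
  R := A
  ring := inferInstance
  alg := Algebra.id A
  etale := inferInstance
  finite := inferInstance
  free := inferInstance
  nontriv := inferInstance
  rank := by simp
  x := a
  y := b
  unity := hb
  unitd := hd
  homs := fun K _ _ _ h => ⟨h, fun Φ => rfl⟩

theorem exists_level {A : Type} [CommRing A] [Nontrivial A] {a b : A} (h2 : IsUnit (2 : A))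
    (hb : IsUnit b) (hd : IsUnit (a ^ 2 - 4 * b)) (k : ℕ) : Nonempty (Level A a b k) := by
  induction k with
  | zero => exact ⟨Level.zero hb hd⟩
  | succ k ih =>
    obtain ⟨T⟩ := ih
    exact ⟨T.next h2⟩

end Pool.Agent.L0h51.HG
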