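import Pool.Agent.L0h51.HG.Defs
import Pool.Agent.L0h51.HG.Iter
import Pool.Agent.L0h51.HG.Bd

/-!
# The archimedean contribution along the tower
-/

set_option autoImplicit false

namespace Pool.Agent.L0h51.HG

open MeasureTheory

section cu

variable {R S : Type} [CommRing R] [CommRing S]

/-- the curve `y² = x³ + a x² + b x` -/
def cu (a b : R) : WeierstrassCurve R := ⟨0, a, 0, b, 0⟩

theorem cu_map (a b : R) (f : R →+* S) : (cu a b).map f = cu (f a) (f b) := by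
  unfold cu WeierstrassCurve.map
  simp

theorem cu_disc (a b : R) : (cu a b).Δ = 16 * b ^ 2 * (a ^ 2 - 4 * b) := by
  unfold cu WeierstrassCurve.Δ WeierstrassCurve.b₂ WeierstrassCurve.b₄ WeierstrassCurve.b₆
    WeierstrassCurve.b₈
  ring

theorem cu_c4 (a b : R) : (cu a b).c₄ = 16 * (a ^ 2 - 3 * b) := by
  unfold cu WeierstrassCurve.c₄ WeierstrassCurve.b₂ WeierstrassCurve.b₄
  ring

end cu

variable {a b : ℂ}

theorem normSq_cu (a b : ℂ) : normSq (cu a b) = (J a b).toReal / 2 := by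
  unfold normSq
  have h1 : ∀ x : ℂ, 2 / ‖4 * x ^ 3 + (cu a b).b₂ * x ^ 2 + 2 * (cu a b).b₄ * x + (cu a b).b₆‖ =
      (1 / 2) * (1 / ‖x * (x ^ 2 + a * x + b)‖) := by
    intro x
    have h2 : 4 * x ^ 3 + (cu a b).b₂ * x ^ 2 + 2 * (cu a b).b₄ * x + (cu a b).b₆ =
        4 * (x * (x ^ 2 + a * x + b)) := by
      unfold cu WeierstrassCurve.b₂ WeierstrassCurve.b₄ WeierstrassCurve.b₆
      ring
    rw [h2, norm_mul]
    have h3 : ‖(4 : ℂ)‖ = 4 := by norm_num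
    rw [h3]
    rcases eq_or_ne ‖x * (x ^ 2 + a * x + b)‖ 0 with h | h
    · rw [h]
      norm_num
    · field_simp
      norm_num
  simp_rw [h1]
  rw [integral_const_mul, integral_eq_lintegral_of_nonneg_ae]
  · unfold J
    ring
  · exact Filter.Eventually.of_forall fun x => by positivity
  · apply Measurable.aestronglyMeasurable
    fun_prop

theorem J_step (hb : b ≠ 0) {s : ℂ} (hs : s ^ 2 = b) :
    (J a b).toReal = 2 * (J (a + 6 * s) (4 * s * (a + 2 * s))).toReal := by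
  rw [J_isog hb, J_shift hs, ENNReal.toReal_mul]
  norm_num

/-- the archimedean contribution as a function of the coefficients -/
noncomputable def Fa (a b : ℂ) : ℝ := arch (cu a b)

theorem Jr_pos (hb : b ≠ 0) (hab : a ^ 2 - 4 * b ≠ 0) : 0 < (J a b).toReal :=
  ENNReal.toReal_pos (J_pos a b) (J_ne_top hb hab)

theorem Fa_eq (hb : b ≠ 0) (hab : a ^ 2 - 4 * b ≠ 0) :
    Fa a b = -((2 * Real.log ‖b‖ + Real.log ‖a ^ 2 - 4 * b‖ + 6 * Real.log (J a b).toReal -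
      2 * Real.log 2) / 12) := by
  unfold Fa arch
  rw [normSq_cu, cu_disc]
  have h1 : 0 < ‖b‖ := norm_pos_iff.2 hb
  have h2 : 0 < ‖a ^ 2 - 4 * b‖ := norm_pos_iff.2 hab
  have h3 := Jr_pos hb hab
  have h4 : ‖(16 : ℂ)‖ = 2 ^ 4 := by norm_num
  have h5 : (0 : ℝ) < 2 ^ 4 * ‖b‖ ^ 2 := mul_pos (by norm_num) (pow_pos h1 2)
  rw [norm_mul, norm_mul, norm_pow, h4,
    Real.log_mul (mul_pos h5 h2).ne' (pow_pos (div_pos h3 (by norm_num)) 6).ne',
    Real.log_mul h5.ne' h2.ne', Real.log_mul (by norm_num) (pow_pos h1 2).ne',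
    Real.log_pow, Real.log_pow, Real.log_pow, Real.log_div h3.ne' (by norm_num)]
  push_cast
  ring

theorem step_ne {K : Type} [Field K] [CharZero K] {a b s : K} (hb : b ≠ 0)
    (hab : a ^ 2 - 4 * b ≠ 0) (hs : s ^ 2 = b) :
    4 * s * (a + 2 * s) ≠ 0 ∧ (a + 6 * s) ^ 2 - 4 * (4 * s * (a + 2 * s)) ≠ 0 := by
  have h1 : s ≠ 0 := by
    rintro rfl
    apply hb
    rw [← hs]
    norm_num
  have h3 : a ^ 2 - 4 * b = (a + 2 * s) * (a - 2 * s) := by
    rw [← hs]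
    ring
  rw [h3] at hab
  have h4 := left_ne_zero_of_mul hab
  have h5 := right_ne_zero_of_mul hab
  constructor
  · exact mul_ne_zero (mul_ne_zero (by norm_num) h1) h4
  · have h6 : (a + 6 * s) ^ 2 - 4 * (4 * s * (a + 2 * s)) = (a - 2 * s) ^ 2 := by ring
    rw [h6]
    exact pow_ne_zero 2 h5

/-- the sum of the logarithms of the new coefficients -/
theorem log_step {K : Type} [NormedField K] [CharZero K] {a b s : K} (hb : b ≠ 0)
    (hab : a ^ 2 - 4 * b ≠ 0) (hs : s ^ 2 = b) :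
    Real.log ‖4 * s * (a + 2 * s)‖ + Real.log ‖4 * (-s) * (a + 2 * (-s))‖ =
      2 * Real.log ‖(4 : K)‖ + Real.log ‖b‖ + Real.log ‖a ^ 2 - 4 * b‖ ∧
    Real.log ‖(a + 6 * s) ^ 2 - 4 * (4 * s * (a + 2 * s))‖ +
      Real.log ‖(a + 6 * (-s)) ^ 2 - 4 * (4 * (-s) * (a + 2 * (-s)))‖ =
      2 * Real.log ‖a ^ 2 - 4 * b‖ := by
  have h1 : s ≠ 0 := by
    rintro rfl
    apply hb
    rw [← hs]
    norm_num
  have h3 : a ^ 2 - 4 * b = (a + 2 * s) * (a - 2 * s) := by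
    rw [← hs]
    ring
  rw [h3] at hab ⊢
  have h4 := left_ne_zero_of_mul hab
  have h5 := right_ne_zero_of_mul hab
  have e1 : ‖(4 : K)‖ ≠ 0 := norm_ne_zero_iff.2 (by norm_num)
  have e2 : ‖s‖ ≠ 0 := norm_ne_zero_iff.2 h1
  have e3 : ‖a + 2 * s‖ ≠ 0 := norm_ne_zero_iff.2 h4
  have e4 : ‖a - 2 * s‖ ≠ 0 := norm_ne_zero_iff.2 h5
  have e5 : a + 2 * (-s) = a - 2 * s := by ring
  have e6 : (a + 6 * s) ^ 2 - 4 * (4 * s * (a + 2 * s)) = (a - 2 * s) ^ 2 := by ring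
  have e7 : (a + 6 * (-s)) ^ 2 - 4 * (4 * (-s) * (a + 2 * (-s))) = (a + 2 * s) ^ 2 := by ring
  rw [e5, e6, ← e5, e7, e5, ← hs]
  simp only [norm_mul, norm_pow, norm_neg]
  rw [Real.log_mul (mul_ne_zero e1 e2) e3, Real.log_mul (mul_ne_zero e1 e2) e4,
    Real.log_mul e1 e2, Real.log_mul e3 e4, Real.log_pow, Real.log_pow, Real.log_pow]
  push_cast
  constructor <;> ring

/-- the archimedean contribution along the tower -/
theorem Fa_iter (k : ℕ) (hb : b ≠ 0) (hab : a ^ 2 - 4 * b ≠ 0) :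
    (op^[k] Fa) a b = 2 ^ k * Fa a b +
      (2 ^ k - 1) * (Real.log ‖b‖ - Real.log ‖a ^ 2 - 4 * b‖ - 4 * Real.log 2) / 6 +
      2 ^ k * k * Real.log 2 / 2 := by
  set F : ℕ → ℂ → ℂ → ℝ := fun k a b => 2 ^ k * Fa a b +
      (2 ^ k - 1) * (Real.log ‖b‖ - Real.log ‖a ^ 2 - 4 * b‖ - 4 * Real.log 2) / 6 +
      2 ^ k * k * Real.log 2 / 2 with hF
  have hlog4 : Real.log ‖(4 : ℂ)‖ = 2 * Real.log 2 := by
    have : ‖(4 : ℂ)‖ = 2 ^ 2 := by norm_num
    rw [this, Real.log_pow]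
    norm_num
  have key : ∀ (k : ℕ) (a b s : ℂ), (b ≠ 0 ∧ a ^ 2 - 4 * b ≠ 0) → s ^ 2 = b → F (k + 1) a b =
      F k (a + 6 * s) (4 * s * (a + 2 * s)) + F k (a + 6 * (-s)) (4 * (-s) * (a + 2 * (-s))) := by
    intro k a b s h hs
    have hs' : (-s) ^ 2 = b := by rw [neg_sq, hs]
    have h1 := step_ne h.1 h.2 hs
    have h2 := step_ne h.1 h.2 hs'
    obtain ⟨h3, h4⟩ := log_step h.1 h.2 hs
    have h5 := J_step (a := a) h.1 hs
    have h6 := J_step (a := a) h.1 hs'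
    have h7 := Jr_pos h1.1 h1.2
    have h8 := Jr_pos h2.1 h2.2
    have h9 : Real.log (J a b).toReal = Real.log 2 +
        Real.log (J (a + 6 * s) (4 * s * (a + 2 * s))).toReal := by
      rw [h5, Real.log_mul (by norm_num) h7.ne']
    have h10 : Real.log (J a b).toReal = Real.log 2 +
        Real.log (J (a + 6 * (-s)) (4 * (-s) * (a + 2 * (-s)))).toReal := by
      rw [h6, Real.log_mul (by norm_num) h8.ne']
    simp only [hF]
    rw [Fa_eq h.1 h.2, Fa_eq h1.1 h1.2, Fa_eq h2.1 h2.2]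
    rw [hlog4] at h3
    push_cast
    rw [pow_succ]
    linear_combination (-(2 : ℝ) ^ k / 2) * h9 - ((2 : ℝ) ^ k / 2) * h10 +
      (1 / 6) * h3 + (2 ^ k / 12 + (2 ^ k - 1) / 6) * h4
  have h := iter_bounds (K := ℂ) (fun a b => b ≠ 0 ∧ a ^ 2 - 4 * b ≠ 0)
    (fun a b s h hs => step_ne h.1 h.2 hs) Fa F F
    (fun a b _ => by simp [hF]) (fun k a b s h hs => (key k a b s h hs).le)
    (fun k a b s h hs => (key k a b s h hs).ge) k a b ⟨hb, hab⟩
  exact le_antisymm h.2 h.1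

end Pool.Agent.L0h51.HG
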