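import Mathlib

/-!
# Products of Weil restrictions of elliptic curves over `ℤ[1/N]`, and their stable Faltings height

For a finite étale algebra `R` over `ℤ[1/N]` and a Weierstrass curve `W` over `R` with unit discriminant, the Weil
restriction of `W` is an abelian scheme over `ℤ[1/N]` of relative dimension the rank of `R`. `height N R W` is its stable
Faltings height, given by the classical formula for elliptic curves.
-/

set_option autoImplicit false

namespace Pool.Agent.L0h51.HG

open MeasureTheory

/-- the ring `ℤ[1/N]` -/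
abbrev Base (N : ℕ) : Type := Localization.Away (N : ℤ)

/-- `(i/2) ∫ ω ∧ ω̄` over the complex points of `W`, where `ω = dx / (2 y + a₁ x + a₃)`. It is computed on the `x`-line, over
which `W` is a double cover and where `|2 y + a₁ x + a₃| ^ 2 = |4 x³ + b₂ x² + 2 b₄ x + b₆|`. -/
noncomputable def normSq (W : WeierstrassCurve ℂ) : ℝ :=
  ∫ x : ℂ, 2 / ‖4 * x ^ 3 + W.b₂ * x ^ 2 + 2 * W.b₄ * x + W.b₆‖

/-- the contribution of a complex embedding: `- (1/12) log (|Δ| ‖ω‖ ^ 12)` with `‖ω‖ ^ 2 = (i/2) ∫ ω ∧ ω̄` -/
noncomputable def arch (W : WeierstrassCurve ℂ) : ℝ :=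
  -(Real.log (‖W.Δ‖ * normSq W ^ 6) / 12)

/-- the contribution of an embedding into the algebraic closure of `ℚ_p` (with `|p| = 1 / p`):
`(1/12) log max (1, |j|)` with `j = c₄³ / Δ` -/
noncomputable def nonarch (p : ℕ) [Fact p.Prime] (W : WeierstrassCurve (PadicAlgCl p)) : ℝ :=
  Real.log (max 1 ‖W.c₄ ^ 3 / W.Δ‖) / 12

/-- the contribution of the prime `p` -/
noncomputable def atPrime (R : Type) [CommRing R] (W : WeierstrassCurve R) (p : ℕ) (hp : p.Prime) : ℝ :=
  haveI : Fact p.Prime := ⟨hp⟩
  ∑ᶠ σ : R →+* PadicAlgCl p, nonarch p (W.map σ)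

/-- the stable Faltings height of the Weil restriction of `W` from `R` to `ℤ[1/N]` (the rank of `R` times the absolute
stable Faltings height of `W`, if `R` is a domain) -/
noncomputable def height (N : ℕ) (R : Type) [CommRing R] (W : WeierstrassCurve R) : ℝ :=
  (∑ᶠ σ : R →+* ℂ, arch (W.map σ)) +
    ∑ p ∈ N.primeFactors.attach, atPrime R W p.1 (Nat.prime_of_mem_primeFactors p.2)

/-- an abelian scheme over `ℤ[1/N]`, given as the product of the Weil restrictions of elliptic curves `W i` over finite
étale `ℤ[1/N]`-algebras `R i` (which are then free modules) -/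
structure AbScheme (N : ℕ) where
  /-- the index set of the factors -/
  I : Type
  /-- it is finite -/
  fin : Fintype I
  /-- the algebras -/
  R : I → Type
  /-- ring structures -/
  ring : ∀ i, CommRing (R i)
  /-- algebra structures -/
  alg : ∀ i, Algebra (Base N) (R i)
  etale : ∀ i, Algebra.Etale (Base N) (R i)
  finite : ∀ i, Module.Finite (Base N) (R i)
  free : ∀ i, Module.Free (Base N) (R i)
  /-- the elliptic curves -/
  W : ∀ i, WeierstrassCurve (R i)
  unit : ∀ i, IsUnit (W i).Δ

attribute [instance] AbScheme.fin AbScheme.ring AbScheme.alg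

/-- the relative dimension -/
noncomputable def AbScheme.dim {N : ℕ} (A : AbScheme N) : ℕ :=
  ∑ i, Module.finrank (Base N) (A.R i)

/-- the stable Faltings height -/
noncomputable def AbScheme.hF {N : ℕ} (A : AbScheme N) : ℝ :=
  ∑ i, height N (A.R i) (A.W i)

end Pool.Agent.L0h51.HG
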