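import Pool.Agent.L0h51.HG.Sum
import Pool.Agent.W270.Szp.Final

/-!
# Lower bounds for the height of the bottom curve
-/

set_option autoImplicit false

namespace Pool.Agent.L0h51.HG

open Pool.Agent.H390R2 (rad IsABCTriple)

theorem Fa_lower {a b : ℂ} (hb : b ≠ 0) (hab : a ^ 2 - 4 * b ≠ 0) : -(4 * Real.log 2) ≤ Fa a b := by
  rw [Fa_eq hb hab]
  have h1 : 0 < ‖b‖ := norm_pos_iff.2 hb
  have h2 : 0 < ‖a ^ 2 - 4 * b‖ := norm_pos_iff.2 hab
  have h3 := Jr_pos hb hab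
  have h4 := J_six hb hab
  have h5 : (256 : ℝ) * (24 * Real.pi) ^ 6 ≤ 2 ^ 50 := by
    have h6 : 24 * Real.pi ≤ 2 ^ 7 := by
      have := Real.pi_lt_d2
      norm_num
      linarith
    calc (256 : ℝ) * (24 * Real.pi) ^ 6 ≤ 256 * (2 ^ 7) ^ 6 := by gcongr
      _ = 2 ^ 50 := by norm_num
  have h7 := Real.log_le_log (by positivity) (h4.trans h5)
  rw [Real.log_mul (by positivity) (by positivity), Real.log_mul (by positivity) h2.ne',
    Real.log_pow, Real.log_pow, Real.log_pow] at h7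
  push_cast at h7
  linarith

theorem fin_nonneg (a b : ℤ) (p : ℕ) (hp : p.Prime) : 0 ≤ fin 0 a b p hp := by
  haveI : Fact p.Prime := ⟨hp⟩
  show 0 ≤ Fu (a : PadicAlgCl p) (b : PadicAlgCl p)
  unfold Fu
  exact div_nonneg (Real.log_nonneg (le_max_left _ _)) (by norm_num)

variable {N : ℕ} {a b : ℤ}

theorem height_crude (hN : N ≠ 0) (hb : b ≠ 0) (hab : a ^ 2 - 4 * b ≠ 0) :
    -(4 * Real.log 2) ≤ height N (Base N) (cu (a : Base N) (b : Base N)) := by
  rw [height_base hN]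
  have hb' : (b : ℂ) ≠ 0 := by exact_mod_cast hb
  have hab' : (a : ℂ) ^ 2 - 4 * (b : ℂ) ≠ 0 := by exact_mod_cast hab
  have h1 := Fa_lower hb' hab'
  have h2 : 0 ≤ ∑ p ∈ N.primeFactors.attach, fin 0 a b p.1 (Nat.prime_of_mem_primeFactors p.2) :=
    Finset.sum_nonneg fun p _ => fin_nonneg a b p.1 _
  linarith

/-- the lower bound of the local term at `p` -/
noncomputable def lf (a b : ℤ) (p : ℕ) : ℝ :=
  (2 * (b.natAbs.factorization p * Real.log p) +
      (a ^ 2 - 4 * b).natAbs.factorization p * Real.log p) / 12 -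
      (if p = 2 then 2 / 3 * Real.log 2 else 0)

theorem fin_lower (ha : ¬ (2 : ℤ) ∣ a) (hb : b ≠ 0) (hab : a ^ 2 - 4 * b ≠ 0) (hc : IsCoprime a b)
    (p : ℕ) (hp : p.Prime) :
    lf a b p ≤ fin 0 a b p hp := by
  haveI : Fact p.Prime := ⟨hp⟩
  have hb' : (b : PadicAlgCl p) ≠ 0 := by exact_mod_cast hb
  have hab' : (a : PadicAlgCl p) ^ 2 - 4 * (b : PadicAlgCl p) ≠ 0 := by exact_mod_cast hab
  have e1 := log_norm_int p hb
  have e2 := log_norm_int p hab
  push_cast at e2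
  show _ ≤ Fu (a : PadicAlgCl p) (b : PadicAlgCl p)
  unfold lf
  split_ifs with h
  · subst h
    have b2 : ‖(2 : PadicAlgCl 2)‖ = 1 / 2 := by
      have h1 := PadicAlgCl.norm_extends 2 (2 : ℚ_[2])
      have h2 : ((2 : ℚ_[2]) : PadicAlgCl 2) = 2 := by
        exact map_ofNat (algebraMap ℚ_[2] (PadicAlgCl 2)) 2
      rw [h2] at h1
      rw [h1]
      have h3 := Padic.norm_p (p := 2)
      norm_num at h3
      rw [h3]
    have ha2 : ‖(a : PadicAlgCl 2)‖ = 1 := norm_int_odd 2 (by exact_mod_cast ha)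
    have hb2 : ‖(b : PadicAlgCl 2)‖ ≤ 1 := IsUltrametricDist.norm_intCast_le_one (PadicAlgCl 2) b
    have h4 := (Fu_two b2 ha2 hb2 hb').1
    have h5 := two_facts b2 ha2 hb2
    rw [h5, Real.log_one] at e2
    simp only [Nat.cast_ofNat] at e1 e2 ⊢
    linarith
  · have b2 : ‖(2 : PadicAlgCl p)‖ = 1 := by
      have h1 : ¬ ((p : ℤ) ∣ 2) := by
        intro h2
        have h3 : p ∣ 2 := by exact_mod_cast h2
        exact h ((Nat.prime_dvd_prime_iff_eq hp Nat.prime_two).1 h3)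
      have := norm_int_odd p h1
      exact_mod_cast this
    rw [Fu_odd b2 hb' hab']
    have h6 : Mx (a : PadicAlgCl p) (b : PadicAlgCl p) = 1 := by
      unfold Mx
      have ha1 : ‖(a : PadicAlgCl p)‖ ≤ 1 := IsUltrametricDist.norm_intCast_le_one (PadicAlgCl p) a
      have hb1 : ‖(b : PadicAlgCl p)‖ ≤ 1 := IsUltrametricDist.norm_intCast_le_one (PadicAlgCl p) b
      apply le_antisymm
      · exact max_le (pow_le_one₀ (norm_nonneg _) ha1) hb1
      · by_cases h7 : (p : ℤ) ∣ a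
        · have h8 : ¬ (p : ℤ) ∣ b := by
            intro h9
            have h10 := hc.isUnit_of_dvd' h7 h9
            rw [Int.isUnit_iff_natAbs_eq, Int.natAbs_natCast] at h10
            exact hp.one_lt.ne' h10
          exact le_max_of_le_right (norm_int_odd p h8).ge
        · apply le_max_of_le_left
          rw [norm_int_odd p h7, one_pow]
    rw [h6, Real.log_one]
    linarith

theorem height_lower (hN : N ≠ 0) (h2N : 2 ∣ N) (ha : ¬ (2 : ℤ) ∣ a) (hb : b ≠ 0)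
    (hab : a ^ 2 - 4 * b ≠ 0) (hc : IsCoprime a b)
    (hpr : ∀ p : ℕ, p.Prime → (p : ℤ) ∣ b * (a ^ 2 - 4 * b) → p ∣ N) :
    (2 * Real.log |(b : ℝ)| + Real.log |((a ^ 2 - 4 * b : ℤ) : ℝ)|) / 12 - 14 / 3 * Real.log 2 ≤
      height N (Base N) (cu (a : Base N) (b : Base N)) := by
  rw [height_base hN]
  have hb' : (b : ℂ) ≠ 0 := by exact_mod_cast hb
  have hab' : (a : ℂ) ^ 2 - 4 * (b : ℂ) ≠ 0 := by exact_mod_cast hab
  have h1 := Fa_lower hb' hab'
  have p1 := prod_formula hb (fun p hp h => hpr p hp (h.mul_right _)) hN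
  have p2 := prod_formula hab (fun p hp h => hpr p hp (h.mul_left _)) hN
  have h2 : ∑ p ∈ N.primeFactors.attach, lf a b p.1 ≤
      ∑ p ∈ N.primeFactors.attach, fin 0 a b p.1 (Nat.prime_of_mem_primeFactors p.2) :=
    Finset.sum_le_sum fun p _ => fin_lower ha hb hab hc p.1 _
  rw [Finset.sum_attach N.primeFactors (fun p => lf a b p)] at h2
  unfold lf at h2
  rw [Finset.sum_sub_distrib,
    Finset.sum_ite_eq' N.primeFactors 2, if_pos (Nat.mem_primeFactors.2 ⟨Nat.prime_two, h2N, hN⟩),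
    ← Finset.sum_div, Finset.sum_add_distrib, ← Finset.mul_sum] at h2
  rw [p1, p2]
  linarith

/-- the curve of an abc-triple -/
theorem exists_frey {x y z : ℕ} (h : IsABCTriple x y z) (h16 : 16 ∣ x * y * z) :
    ∃ a b : ℤ, ¬ (2 : ℤ) ∣ a ∧ b ≠ 0 ∧ a ^ 2 - 4 * b ≠ 0 ∧ IsCoprime a b ∧
      b ^ 2 * (a ^ 2 - 4 * b) = ((x * y * z : ℕ) : ℤ) ^ 2 := by
  obtain ⟨hx, hy, hz, hsum, hxy, hxz, hyz⟩ := h
  have key : ∀ A B C : ℤ, A + B = C → IsCoprime A B → ¬ (2 : ℤ) ∣ C → A ≠ 0 → B ≠ 0 → C ≠ 0 →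
      (A * B * C) ^ 2 = ((x * y * z : ℕ) : ℤ) ^ 2 →
      ∃ a b : ℤ, ¬ (2 : ℤ) ∣ a ∧ b ≠ 0 ∧ a ^ 2 - 4 * b ≠ 0 ∧ IsCoprime a b ∧
      b ^ 2 * (a ^ 2 - 4 * b) = ((x * y * z : ℕ) : ℤ) ^ 2 := by
    intro A B C h1 h2 h3 h4 h5 h6 h7
    refine ⟨B - A, -(A * B), ?_, ?_, ?_, ?_, ?_⟩
    · intro h8
      apply h3
      have : C = (B - A) + 2 * A := by linarith
      rw [this]
      exact dvd_add h8 (dvd_mul_right _ _)
    · exact neg_ne_zero.2 (mul_ne_zero h4 h5)
    · have : (B - A) ^ 2 - 4 * -(A * B) = C ^ 2 := by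
        rw [← h1]
        ring
      rw [this]
      exact pow_ne_zero 2 h6
    · apply IsCoprime.neg_right
      apply IsCoprime.mul_right
      · have h9 : IsCoprime (B + A * (-1)) A := (IsCoprime.add_mul_left_left h2.symm (-1))
        have e : B - A = B + A * (-1) := by ring
        rw [e]
        exact h9
      · have h9 : IsCoprime (-A + B * 1) B := (IsCoprime.add_mul_left_left h2.neg_left 1)
        have e : B - A = -A + B * 1 := by ring
        rw [e]
        exact h9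
    · rw [← h7, ← h1]
      ring
  have hxy' : IsCoprime (x : ℤ) (y : ℤ) := Nat.isCoprime_iff_coprime.2 hxy
  have hyz' : IsCoprime (y : ℤ) (z : ℤ) := Nat.isCoprime_iff_coprime.2 hyz
  have hx' : (x : ℤ) ≠ 0 := by exact_mod_cast hx.ne'
  have hy' : (y : ℤ) ≠ 0 := by exact_mod_cast hy.ne'
  have hz' : (z : ℤ) ≠ 0 := by exact_mod_cast hz.ne'
  by_cases h2 : (2 : ℤ) ∣ (z : ℤ)
  · have h3 : ¬ (2 : ℤ) ∣ (x : ℤ) := by
      intro h4
      have h5 := (Nat.isCoprime_iff_coprime.2 hxz).isUnit_of_dvd' h4 h2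
      rw [Int.isUnit_iff] at h5
      omega
    refine key z (-y) x ?_ hyz'.symm.neg_right h3 hz' (neg_ne_zero.2 hy') hx' ?_
    · rw [← hsum]
      push_cast
      ring
    · push_cast
      ring
  · refine key x y z ?_ hxy' h2 hx' hy' hz' ?_
    · exact_mod_cast hsum
    · push_cast
      ring

/-- infinitely many bases with a curve of large height -/
theorem exists_base {K : ℝ} (hK0 : 0 ≤ K) (hK : K < √(8 / 9) * Real.exp (59 / 30)) (N₀ : ℕ) :
    ∃ N : ℕ, N₀ < N ∧ Squarefree N ∧ 2 ∣ N ∧ ∃ a b : ℤ, ¬ (2 : ℤ) ∣ a ∧ b ≠ 0 ∧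
      a ^ 2 - 4 * b ≠ 0 ∧ (∀ p : ℕ, p.Prime → (p : ℤ) ∣ b * (a ^ 2 - 4 * b) → p ∣ N) ∧
      Real.log N / 2 + K / 2 * √(Real.log N) / Real.log (Real.log N) + 1 / 2 -
        14 / 3 * Real.log 2 ≤ height N (Base N) (cu (a : Base N) (b : Base N)) := by
  obtain ⟨ε, hε, hε1, h⟩ := Pool.Agent.W270.Szp.choose_eps hK0 hK
  obtain ⟨x, y, z, q, habc, h16, hq, hqa, hXq, hlt⟩ :=
    Pool.Agent.W270.Szp.core2 hε hε1 hK0 h (max (Real.log (N₀ + 1)) (Real.exp 2))
  obtain ⟨a, b, c1, c2, c3, c4, c5⟩ := exists_frey habc h16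
  obtain ⟨hx, hy, hz, hsum, hxy, hxz, hyz⟩ := id habc
  have hxyz : x * y * z ≠ 0 := by positivity
  set N := rad (x * y * z) with hN
  have hNpos : 0 < N := Finset.prod_pos fun p hp => (Nat.prime_of_mem_primeFactors hp).pos
  have hNR : (0 : ℝ) < N := by exact_mod_cast hNpos
  have hdiv : ∀ p : ℕ, p.Prime → p ∣ x * y * z → p ∣ N := fun p hp hd =>
    Finset.dvd_prod_of_mem _ (Nat.mem_primeFactors.2 ⟨hp, hd, hxyz⟩)
  have hqN : q ∣ N := hdiv q hq ((hqa.mul_right y).mul_right z)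
  have hqN' : (q : ℝ) ≤ N := by exact_mod_cast Nat.le_of_dvd hNpos hqN
  have hq0 : (0 : ℝ) < q := by exact_mod_cast hq.pos
  have hlq : Real.log q ≤ Real.log N := Real.log_le_log hq0 hqN'
  have h1 : Real.log (N₀ + 1) < Real.log N := (lt_of_le_of_lt (le_max_left _ _) hXq).trans_le hlq
  have h2 : Real.exp 2 < Real.log N := (lt_of_le_of_lt (le_max_right _ _) hXq).trans_le hlq
  have h2N : 2 ∣ N := hdiv 2 Nat.prime_two ((by norm_num : 2 ∣ 16).trans h16)
  have hpr : ∀ p : ℕ, p.Prime → (p : ℤ) ∣ b * (a ^ 2 - 4 * b) → p ∣ N := by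
    intro p hp hd
    apply hdiv p hp
    have h3 : (p : ℤ) ∣ ((x * y * z : ℕ) : ℤ) ^ 2 := by
      rw [← c5]
      have : b ^ 2 * (a ^ 2 - 4 * b) = b * (b * (a ^ 2 - 4 * b)) := by ring
      rw [this]
      exact hd.mul_left b
    have h4 : p ∣ (x * y * z) ^ 2 := by exact_mod_cast h3
    exact hp.dvd_of_dvd_pow h4
  refine ⟨N, ?_, ?_, h2N, a, b, c1, c2, c3, hpr, ?_⟩
  · have := (Real.log_lt_log_iff (by positivity) hNR).1 h1
    have h3 : ((N₀ + 1 : ℕ) : ℝ) < N := by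
      push_cast
      exact this
    have h4 : N₀ + 1 < N := by exact_mod_cast h3
    omega
  · rw [hN]
    unfold rad
    exact Finset.squarefree_prod_of_pairwise_isCoprime (fun p hp r hr hne =>
        Nat.coprime_iff_isRelPrime.1 ((Nat.coprime_primes
            (Nat.prime_of_mem_primeFactors hp) (Nat.prime_of_mem_primeFactors hr)).2 hne))
      (fun p hp => (Nat.prime_of_mem_primeFactors hp).squarefree)
  · have h3 := height_lower hNpos.ne' h2N c1 c2 c3 c4 hpr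
    have hx' : (0 : ℝ) < x := by exact_mod_cast hx
    have hy' : (0 : ℝ) < y := by exact_mod_cast hy
    have hz' : (0 : ℝ) < z := by exact_mod_cast hz
    have h4 : 2 * Real.log |(b : ℝ)| + Real.log |((a ^ 2 - 4 * b : ℤ) : ℝ)| =
        2 * (Real.log x + Real.log y + Real.log z) := by
      have e1 : (b : ℝ) ^ 2 * ((a ^ 2 - 4 * b : ℤ) : ℝ) = ((x : ℝ) * y * z) ^ 2 := by
        exact_mod_cast congrArg (fun n : ℤ => (n : ℝ)) c5
      have e2 : |(b : ℝ)| ^ 2 * |((a ^ 2 - 4 * b : ℤ) : ℝ)| = ((x : ℝ) * y * z) ^ 2 := by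
        rw [← abs_pow, ← abs_mul, e1, abs_of_pos (by positivity)]
      have hb0 : (0 : ℝ) < |(b : ℝ)| := abs_pos.2 (by exact_mod_cast c2)
      have hd0 : (0 : ℝ) < |((a ^ 2 - 4 * b : ℤ) : ℝ)| := abs_pos.2 (by exact_mod_cast c3)
      have e3 := congrArg Real.log e2
      rw [Real.log_mul (by positivity) hd0.ne', Real.log_pow, Real.log_pow,
        Real.log_mul (by positivity) hz'.ne', Real.log_mul hx'.ne' hy'.ne'] at e3
      push_cast at e3
      push_cast
      linarith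
    rw [h4] at h3
    have hxz' : Real.log x ≤ Real.log z := Real.log_le_log hx' (by exact_mod_cast (by omega : x ≤ z))
    have hyz' : Real.log y ≤ Real.log z := Real.log_le_log hy' (by exact_mod_cast (by omega : y ≤ z))
    have hqx : Real.log q ≤ Real.log z := by
      refine (Real.log_le_log hq0 ?_).trans hxz'
      exact_mod_cast Nat.le_of_dvd hx hqa
    have h5 : Real.exp 2 < Real.log z := (lt_of_le_of_lt (le_max_right _ _) hXq).trans_le hqx
    have h6 : 0 ≤ Real.log (Real.log z) := by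
      apply Real.log_nonneg
      have := Real.add_one_le_exp (2 : ℝ)
      linarith
    have h7 : 0 ≤ K * √(Real.log z) / Real.log (Real.log z) :=
      div_nonneg (mul_nonneg hK0 (Real.sqrt_nonneg _)) h6
    have h8 : Real.log N ≤ Real.log z := by linarith
    have h9 := Pool.Agent.W270.Szp.sqrt_div_log h2.le h8
    have h10 := mul_le_mul_of_nonneg_left h9 hK0
    rw [← mul_div_assoc, ← mul_div_assoc] at h10
    have h11 : K / 2 * √(Real.log N) / Real.log (Real.log N) =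
        (K * √(Real.log N) / Real.log (Real.log N)) / 2 := by ring
    rw [h11]
    linarith

end Pool.Agent.L0h51.HG
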