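import Pool.Agent.L0h51.HG.Place

/-!
# Heights along the tower
-/

set_option autoImplicit false

namespace Pool.Agent.L0h51.HG

section base

variable {N : ℕ}

theorem base_hom (hN : N ≠ 0) (K : Type) [Field K] [CharZero K] :
    Nonempty (Base N →+* K) ∧ ∀ f g : Base N →+* K, f = g := by
  have h : IsUnit (Int.castRingHom K (N : ℤ)) := by
    rw [isUnit_iff_ne_zero]
    simpa using hN
  refine ⟨⟨IsLocalization.Away.lift (N : ℤ) h⟩, fun f g => ?_⟩
  apply IsLocalization.ringHom_ext (Submonoid.powers (N : ℤ))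
  exact RingHom.ext_int _ _

theorem base_sum (hN : N ≠ 0) (K : Type) [Field K] [CharZero K] :
    Finite (Base N →+* K) ∧ ∀ (f : K → K → ℝ) (a b : ℤ),
      ∑ᶠ σ : Base N →+* K, f (σ (a : Base N)) (σ (b : Base N)) = f a b := by
  obtain ⟨⟨σ⟩, h⟩ := base_hom hN K
  letI : Unique (Base N →+* K) := ⟨⟨σ⟩, fun f => h f σ⟩
  refine ⟨inferInstance, fun f a b => ?_⟩
  rw [finsum_unique, map_intCast, map_intCast]

theorem base_nontrivial (hN : N ≠ 0) : Nontrivial (Base N) := by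
  obtain ⟨⟨σ⟩, -⟩ := base_hom hN ℚ
  exact σ.domain_nontrivial

theorem unit_nat : IsUnit ((N : ℕ) : Base N) := by
  have h := IsLocalization.Away.algebraMap_isUnit (S := Base N) (N : ℤ)
  rwa [map_natCast] at h

theorem unit_dvd {m : ℕ} (h : m ∣ N) : IsUnit ((m : ℕ) : Base N) := by
  obtain ⟨c, hc⟩ := h
  have h1 := unit_nat (N := N)
  rw [hc] at h1
  push_cast at h1
  rw [hc]
  exact isUnit_of_mul_isUnit_left h1

theorem unit_list (l : List ℕ) (h : ∀ p ∈ l, IsUnit ((p : ℕ) : Base N)) :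
    IsUnit ((l.prod : ℕ) : Base N) := by
  induction l with
  | nil => simp
  | cons p l ih =>
    rw [List.prod_cons, Nat.cast_mul]
    exact (h p (by simp)).mul (ih fun q hq => h q (by simp [hq]))

theorem unit_int {n : ℤ} (hn : n ≠ 0) (h : ∀ p : ℕ, p.Prime → (p : ℤ) ∣ n → p ∣ N) :
    IsUnit ((n : ℤ) : Base N) := by
  have hn' : n.natAbs ≠ 0 := Int.natAbs_ne_zero.2 hn
  have h1 : IsUnit ((n.natAbs : ℕ) : Base N) := by
    rw [← Nat.prod_primeFactorsList hn']
    refine unit_list _ fun p hp => unit_dvd ?_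
    rw [Nat.mem_primeFactorsList hn'] at hp
    exact h p hp.1 (Int.natCast_dvd.2 hp.2)
  rcases Int.natAbs_eq n with h2 | h2
  · rw [h2, Int.cast_natCast]
    exact h1
  · rw [h2, Int.cast_neg, Int.cast_natCast]
    exact h1.neg

end base

/-- the local term at `p` for the level `k` -/
noncomputable def fin (k : ℕ) (a b : ℤ) (p : ℕ) (hp : p.Prime) : ℝ :=
  haveI : Fact p.Prime := ⟨hp⟩
  (op^[k] (Fu (K := PadicAlgCl p))) (a : PadicAlgCl p) (b : PadicAlgCl p)

variable {N : ℕ} {a b : ℤ}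

theorem height_level (hN : N ≠ 0) (k : ℕ) (T : Level (Base N) (a : Base N) (b : Base N) k) :
    @height N T.R T.ring (@cu T.R T.ring T.x T.y) = (op^[k] Fa) (a : ℂ) (b : ℂ) +
      ∑ p ∈ N.primeFactors.attach, fin k a b p.1 (Nat.prime_of_mem_primeFactors p.2) := by
  letI := T.ring
  letI := T.alg
  unfold height
  congr 1
  · obtain ⟨h1, h2⟩ := base_sum hN ℂ
    rw [← h2 (op^[k] Fa) a b, ← (T.homs ℂ h1).2 Fa]
    refine finsum_congr fun σ => ?_
    rw [cu_map]
    rfl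
  · refine Finset.sum_congr rfl fun p _ => ?_
    have hp := Nat.prime_of_mem_primeFactors p.2
    haveI : Fact p.1.Prime := ⟨hp⟩
    obtain ⟨h1, h2⟩ := base_sum hN (PadicAlgCl p.1)
    show ∑ᶠ σ : T.R →+* PadicAlgCl p.1, nonarch p.1 ((cu T.x T.y).map σ) =
      (op^[k] (Fu (K := PadicAlgCl p.1))) (a : PadicAlgCl p.1) (b : PadicAlgCl p.1)
    rw [← h2 (op^[k] (Fu (K := PadicAlgCl p.1))) a b, ← (T.homs (PadicAlgCl p.1) h1).2 Fu]
    refine finsum_congr fun σ => ?_
    rw [cu_map]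
    rfl

theorem height_base (hN : N ≠ 0) :
    height N (Base N) (cu (a : Base N) (b : Base N)) = Fa (a : ℂ) (b : ℂ) +
      ∑ p ∈ N.primeFactors.attach, fin 0 a b p.1 (Nat.prime_of_mem_primeFactors p.2) := by
  unfold height
  congr 1
  · obtain ⟨h1, h2⟩ := base_sum hN ℂ
    rw [← h2 Fa a b]
    refine finsum_congr fun σ => ?_
    rw [cu_map]
    rfl
  · refine Finset.sum_congr rfl fun p _ => ?_
    have hp := Nat.prime_of_mem_primeFactors p.2
    haveI : Fact p.1.Prime := ⟨hp⟩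
    obtain ⟨h1, h2⟩ := base_sum hN (PadicAlgCl p.1)
    show ∑ᶠ σ : Base N →+* PadicAlgCl p.1, nonarch p.1 ((cu (a : Base N) (b : Base N)).map σ) =
      (Fu (K := PadicAlgCl p.1)) (a : PadicAlgCl p.1) (b : PadicAlgCl p.1)
    rw [← h2 (Fu (K := PadicAlgCl p.1)) a b]
    refine finsum_congr fun σ => ?_
    rw [cu_map]
    rfl

/-- the exponent difference at `p` -/
noncomputable def cp (a b : ℤ) (p : ℕ) : ℝ :=
  -(b.natAbs.factorization p * Real.log p) + (a ^ 2 - 4 * b).natAbs.factorization p * Real.log p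

theorem local_bound (k : ℕ) (ha : ¬ (2 : ℤ) ∣ a) (hb : b ≠ 0) (hab : a ^ 2 - 4 * b ≠ 0) (p : ℕ)
    (hp : p.Prime) :
    |fin k a b p hp - 2 ^ k * fin 0 a b p hp -
      (2 ^ k - 1) * (cp a b p + if p = 2 then 4 * Real.log 2 else 0) / 6| ≤
      if p = 2 then 2 ^ k * (2 / 3 * Real.log 2) else 0 := by
  haveI : Fact p.Prime := ⟨hp⟩
  have hb' : (b : PadicAlgCl p) ≠ 0 := by exact_mod_cast hb
  have hab' : (a : PadicAlgCl p) ^ 2 - 4 * (b : PadicAlgCl p) ≠ 0 := by exact_mod_cast hab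
  have e1 := log_norm_int p hb
  have e2 := log_norm_int p hab
  push_cast at e2
  have e3 : cp a b p = Real.log ‖(b : PadicAlgCl p)‖ -
      Real.log ‖(a : PadicAlgCl p) ^ 2 - 4 * (b : PadicAlgCl p)‖ := by
    unfold cp
    rw [e1, e2]
    ring
  show |(op^[k] (Fu (K := PadicAlgCl p))) (a : PadicAlgCl p) (b : PadicAlgCl p) -
    2 ^ k * Fu (a : PadicAlgCl p) (b : PadicAlgCl p) - _| ≤ _
  rw [e3]
  split_ifs with h
  · subst h
    have b2 : ‖(2 : PadicAlgCl 2)‖ = 1 / 2 := by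
      have h1 := PadicAlgCl.norm_extends 2 (2 : ℚ_[2])
      have h2 : ((2 : ℚ_[2]) : PadicAlgCl 2) = 2 := by
        exact map_ofNat (algebraMap ℚ_[2] (PadicAlgCl 2)) 2
      rw [h2] at h1
      rw [h1]
      have h3 := Padic.norm_p (p := 2)
      norm_num at h3
      rw [h3]
    have ha2 : ‖(a : PadicAlgCl 2)‖ = 1 := norm_int_odd 2 (by exact_mod_cast ha)
    have hb2 : ‖(b : PadicAlgCl 2)‖ ≤ 1 := IsUltrametricDist.norm_intCast_le_one (PadicAlgCl 2) b
    exact Fu_two_iter b2 k ha2 hb2 hb'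
  · have b2 : ‖(2 : PadicAlgCl p)‖ = 1 := by
      have h1 : ¬ ((p : ℤ) ∣ 2) := by
        intro h2
        have h3 : p ∣ 2 := by exact_mod_cast h2
        exact h ((Nat.prime_dvd_prime_iff_eq hp Nat.prime_two).1 h3)
      have := norm_int_odd p h1
      exact_mod_cast this
    rw [Fu_odd_iter b2 k hb' hab']
    apply le_of_eq
    rw [abs_eq_zero]
    ring

/-- **the height along the tower** -/
theorem height_tower (hN : N ≠ 0) (h2N : 2 ∣ N) (ha : ¬ (2 : ℤ) ∣ a) (hb : b ≠ 0)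
    (hab : a ^ 2 - 4 * b ≠ 0) (hpr : ∀ p : ℕ, p.Prime → (p : ℤ) ∣ b * (a ^ 2 - 4 * b) → p ∣ N)
    (k : ℕ) (T : Level (Base N) (a : Base N) (b : Base N) k) :
    |@height N T.R T.ring (@cu T.R T.ring T.x T.y) -
      2 ^ k * (height N (Base N) (cu (a : Base N) (b : Base N)) + k * Real.log 2 / 2)| ≤
      2 ^ k * (2 / 3 * Real.log 2) := by
  rw [height_level hN k T, height_base hN]
  have hb' : (b : ℂ) ≠ 0 := by exact_mod_cast hb
  have hab' : (a : ℂ) ^ 2 - 4 * (b : ℂ) ≠ 0 := by exact_mod_cast hab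
  rw [Fa_iter k hb' hab']
  have e1 : ‖(b : ℂ)‖ = |(b : ℝ)| := Complex.norm_intCast b
  have e2 : ‖(a : ℂ) ^ 2 - 4 * (b : ℂ)‖ = |((a ^ 2 - 4 * b : ℤ) : ℝ)| := by
    rw [← Complex.norm_intCast]
    push_cast
    rfl
  have p1 := prod_formula hb (fun p hp h => hpr p hp (h.mul_right _)) hN
  have p2 := prod_formula hab (fun p hp h => hpr p hp (h.mul_left _)) hN
  rw [e1, e2, p1, p2]
  have s1 : ∑ p ∈ N.primeFactors.attach, (fin k a b p.1 (Nat.prime_of_mem_primeFactors p.2) -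
      2 ^ k * fin 0 a b p.1 (Nat.prime_of_mem_primeFactors p.2) -
      (2 ^ k - 1) * (cp a b p.1 + if p.1 = 2 then 4 * Real.log 2 else 0) / 6) =
      ∑ p ∈ N.primeFactors.attach, fin k a b p.1 (Nat.prime_of_mem_primeFactors p.2) -
      2 ^ k * ∑ p ∈ N.primeFactors.attach, fin 0 a b p.1 (Nat.prime_of_mem_primeFactors p.2) -
      (2 ^ k - 1) * (-∑ p ∈ N.primeFactors, (b.natAbs.factorization p * Real.log p : ℝ) +
        ∑ p ∈ N.primeFactors, ((a ^ 2 - 4 * b).natAbs.factorization p * Real.log p : ℝ) +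
        4 * Real.log 2) / 6 := by
    rw [Finset.sum_sub_distrib, Finset.sum_sub_distrib, ← Finset.mul_sum, ← Finset.sum_div,
      ← Finset.mul_sum, Finset.sum_add_distrib,
      Finset.sum_attach N.primeFactors (fun p => cp a b p),
      Finset.sum_attach N.primeFactors (fun p => if p = 2 then 4 * Real.log 2 else 0),
      Finset.sum_ite_eq' N.primeFactors 2, if_pos (Nat.mem_primeFactors.2 ⟨Nat.prime_two, h2N, hN⟩)]
    unfold cp
    rw [Finset.sum_add_distrib, Finset.sum_neg_distrib]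
  have s2 : |∑ p ∈ N.primeFactors.attach, (fin k a b p.1 (Nat.prime_of_mem_primeFactors p.2) -
      2 ^ k * fin 0 a b p.1 (Nat.prime_of_mem_primeFactors p.2) -
      (2 ^ k - 1) * (cp a b p.1 + if p.1 = 2 then 4 * Real.log 2 else 0) / 6)| ≤
      2 ^ k * (2 / 3 * Real.log 2) := by
    refine (Finset.abs_sum_le_sum_abs _ _).trans ?_
    have s3 : ∑ p ∈ N.primeFactors.attach, (if p.1 = 2 then 2 ^ k * (2 / 3 * Real.log 2) else 0) =
        2 ^ k * (2 / 3 * Real.log 2) := by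
      rw [Finset.sum_attach N.primeFactors (fun p => if p = 2 then 2 ^ k * (2 / 3 * Real.log 2) else 0),
        Finset.sum_ite_eq' N.primeFactors 2,
        if_pos (Nat.mem_primeFactors.2 ⟨Nat.prime_two, h2N, hN⟩)]
    rw [← s3]
    exact Finset.sum_le_sum fun p _ => local_bound k ha hb hab p.1 _
  rw [s1] at s2
  convert s2 using 2
  ring

end Pool.Agent.L0h51.HG
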