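import Pool.Agent.L0h51.HG.Arch

/-!
# The `p`-adic contributions along the tower
-/

set_option autoImplicit false

namespace Pool.Agent.L0h51.HG

section ultra

variable {K : Type} [NormedField K] [IsUltrametricDist K] [CharZero K] {a b s : K}

theorem nn (x y : K) : ‖x + y‖ ≤ max ‖x‖ ‖y‖ := IsUltrametricDist.norm_add_le_max x y

theorem ns (x y : K) : ‖x - y‖ ≤ max ‖x‖ ‖y‖ := by
  have := IsUltrametricDist.norm_add_le_max x (-y)
  rwa [norm_neg, ← sub_eq_add_neg] at this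

theorem nat_le (n : ℕ) : ‖(n : K)‖ ≤ 1 := IsUltrametricDist.norm_natCast_le_one K n

/-- `max (|a|², |b|)` -/
noncomputable def Mx (a b : K) : ℝ := max (‖a‖ ^ 2) ‖b‖

theorem mul_nat_le (n : ℕ) (x : K) : ‖(n : K) * x‖ ≤ ‖x‖ := by
  rw [norm_mul]
  exact mul_le_of_le_one_left (norm_nonneg x) (nat_le n)

theorem max_eq (a b : K) :
    max (‖b‖ ^ 2 * ‖a ^ 2 - 4 * b‖) (‖a ^ 2 - 3 * b‖ ^ 3) = Mx a b ^ 3 := by
  have h3b : ‖(3 : K) * b‖ ≤ ‖b‖ := by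
    have := mul_nat_le 3 b
    exact_mod_cast this
  have h4b : ‖(4 : K) * b‖ ≤ ‖b‖ := by
    have := mul_nat_le 4 b
    exact_mod_cast this
  have ha : ‖a‖ ^ 2 ≤ Mx a b := le_max_left _ _
  have hb : ‖b‖ ≤ Mx a b := le_max_right _ _
  have hM : 0 ≤ Mx a b := (norm_nonneg b).trans hb
  have h1 : ‖a ^ 2 - 3 * b‖ ≤ Mx a b :=
    (ns _ _).trans (max_le (by rw [norm_pow]; exact ha) (h3b.trans hb))
  have h2 : ‖a ^ 2 - 4 * b‖ ≤ Mx a b :=
    (ns _ _).trans (max_le (by rw [norm_pow]; exact ha) (h4b.trans hb))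
  apply le_antisymm
  · apply max_le
    · calc ‖b‖ ^ 2 * ‖a ^ 2 - 4 * b‖ ≤ Mx a b ^ 2 * Mx a b :=
          mul_le_mul (pow_le_pow_left₀ (norm_nonneg b) hb 2) h2 (norm_nonneg _) (by positivity)
        _ = Mx a b ^ 3 := by ring
    · exact pow_le_pow_left₀ (norm_nonneg _) h1 3
  · rcases lt_or_ge ‖b‖ (‖a‖ ^ 2) with h | h
    · have e : Mx a b = ‖a‖ ^ 2 := max_eq_left h.le
      rw [e]
      have h5 : ‖a‖ ^ 2 ≤ ‖a ^ 2 - 3 * b‖ := by
        have h6 : ‖a‖ ^ 2 ≤ max ‖a ^ 2 - 3 * b‖ ‖3 * b‖ := by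
          calc ‖a‖ ^ 2 = ‖(a ^ 2 - 3 * b) + 3 * b‖ := by rw [sub_add_cancel, norm_pow]
            _ ≤ _ := nn _ _
        rcases le_max_iff.1 h6 with h7 | h7
        · exact h7
        · exact absurd (h7.trans h3b) (not_le.2 h)
      exact le_max_of_le_right (pow_le_pow_left₀ (by positivity) h5 3)
    · have e : Mx a b = ‖b‖ := max_eq_right h
      rw [e]
      have h6 : ‖b‖ ≤ max ‖a ^ 2 - 3 * b‖ ‖a ^ 2 - 4 * b‖ := by
        calc ‖b‖ = ‖(a ^ 2 - 3 * b) - (a ^ 2 - 4 * b)‖ := by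
              congr 1
              ring
          _ ≤ _ := ns _ _
      rcases le_max_iff.1 h6 with h7 | h7
      · exact le_max_of_le_right (pow_le_pow_left₀ (by positivity) h7 3)
      · apply le_max_of_le_left
        calc ‖b‖ ^ 3 = ‖b‖ ^ 2 * ‖b‖ := by ring
          _ ≤ ‖b‖ ^ 2 * ‖a ^ 2 - 4 * b‖ := by gcongr

theorem Mx_step (b4 : ‖(4 : K)‖ = 1) (hs : s ^ 2 = b) :
    Mx (a + 6 * s) (4 * s * (a + 2 * s)) = Mx a b := by
  have h6s : ‖(6 : K) * s‖ ≤ ‖s‖ := by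
    have := mul_nat_le 6 s
    exact_mod_cast this
  have h2s : ‖(2 : K) * s‖ ≤ ‖s‖ := by
    have := mul_nat_le 2 s
    exact_mod_cast this
  have e0 : ‖b‖ = ‖s‖ ^ 2 := by rw [← hs, norm_pow]
  have e1 : ‖4 * s * (a + 2 * s)‖ = ‖s‖ * ‖a + 2 * s‖ := by
    rw [norm_mul, norm_mul, b4, one_mul]
  unfold Mx
  rw [e0, e1]
  set m : ℝ := max ‖a‖ ‖s‖ with hm
  have ha : ‖a‖ ≤ m := le_max_left _ _
  have hb : ‖s‖ ≤ m := le_max_right _ _
  have hm0 : 0 ≤ m := (norm_nonneg s).trans hb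
  have h1 : ‖a + 6 * s‖ ≤ m := (nn _ _).trans (max_le ha (h6s.trans hb))
  have h2 : ‖a + 2 * s‖ ≤ m := (nn _ _).trans (max_le ha (h2s.trans hb))
  apply le_antisymm
  · have e2 : max (‖a‖ ^ 2) (‖s‖ ^ 2) = m ^ 2 := by
      rcases le_total ‖a‖ ‖s‖ with h | h
      · rw [hm, max_eq_right h, max_eq_right (pow_le_pow_left₀ (norm_nonneg a) h 2)]
      · rw [hm, max_eq_left h, max_eq_left (pow_le_pow_left₀ (norm_nonneg s) h 2)]
    rw [e2]
    apply max_le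
    · exact pow_le_pow_left₀ (norm_nonneg _) h1 2
    · calc ‖s‖ * ‖a + 2 * s‖ ≤ m * m := mul_le_mul hb h2 (norm_nonneg _) hm0
        _ = m ^ 2 := by ring
  · rcases lt_or_ge ‖s‖ ‖a‖ with h | h
    · rw [max_eq_left (pow_le_pow_left₀ (norm_nonneg s) h.le 2)]
      have h5 : ‖a‖ ≤ max ‖a + 6 * s‖ ‖6 * s‖ := by
        calc ‖a‖ = ‖(a + 6 * s) - 6 * s‖ := by rw [add_sub_cancel_right]
          _ ≤ _ := ns _ _
      rcases le_max_iff.1 h5 with h7 | h7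
      · exact le_max_of_le_left (pow_le_pow_left₀ (norm_nonneg _) h7 2)
      · exact absurd (h7.trans h6s) (not_le.2 h)
    · rw [max_eq_right (pow_le_pow_left₀ (norm_nonneg a) h 2)]
      have h6 : ‖s‖ ≤ max ‖a + 6 * s‖ ‖a + 2 * s‖ := by
        calc ‖s‖ = ‖(a + 6 * s) - (a + 2 * s)‖ := by
              rw [show (a + 6 * s) - (a + 2 * s) = 4 * s by ring, norm_mul, b4, one_mul]
          _ ≤ _ := ns _ _
      rcases le_max_iff.1 h6 with h7 | h7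
      · exact le_max_of_le_left (pow_le_pow_left₀ (norm_nonneg _) h7 2)
      · apply le_max_of_le_right
        calc ‖s‖ ^ 2 = ‖s‖ * ‖s‖ := by ring
          _ ≤ ‖s‖ * ‖a + 2 * s‖ := by gcongr

/-- the local term of the height as a function of the coefficients -/
noncomputable def Fu (a b : K) : ℝ := Real.log (max 1 ‖(cu a b).c₄ ^ 3 / (cu a b).Δ‖) / 12

theorem Fu_odd (b2 : ‖(2 : K)‖ = 1) (hb : b ≠ 0) (hab : a ^ 2 - 4 * b ≠ 0) :
    Fu a b = (3 * Real.log (Mx a b) - 2 * Real.log ‖b‖ - Real.log ‖a ^ 2 - 4 * b‖) / 12 := by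
  have b4 : ‖(4 : K)‖ = 1 := by
    rw [show (4 : K) = 2 * 2 by norm_num, norm_mul, b2, one_mul]
  have b16 : ‖(16 : K)‖ = 1 := by
    rw [show (16 : K) = 4 * 4 by norm_num, norm_mul, b4, one_mul]
  unfold Fu
  have h1 : 0 < ‖b‖ := norm_pos_iff.2 hb
  have h2 : 0 < ‖a ^ 2 - 4 * b‖ := norm_pos_iff.2 hab
  have h3 : 0 < Mx a b := lt_of_lt_of_le h1 (le_max_right _ _)
  have h4 : (0 : ℝ) < ‖b‖ ^ 2 * ‖a ^ 2 - 4 * b‖ := by positivity
  have h5 : max 1 ‖(cu a b).c₄ ^ 3 / (cu a b).Δ‖ = Mx a b ^ 3 / (‖b‖ ^ 2 * ‖a ^ 2 - 4 * b‖) := by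
    rw [cu_disc, cu_c4, ← max_eq, norm_div, norm_pow, norm_mul, norm_mul, norm_mul, norm_pow, b16,
      one_mul, one_mul, ← max_div_div_right h4.le, div_self h4.ne']
  rw [h5, Real.log_div (by positivity) h4.ne', Real.log_mul (by positivity) h2.ne', Real.log_pow,
    Real.log_pow]
  push_cast
  ring

theorem Fu_odd_step (b2 : ‖(2 : K)‖ = 1) (hb : b ≠ 0) (hab : a ^ 2 - 4 * b ≠ 0) (hs : s ^ 2 = b) :
    Fu (a + 6 * s) (4 * s * (a + 2 * s)) + Fu (a + 6 * (-s)) (4 * (-s) * (a + 2 * (-s))) =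
      2 * Fu a b + (Real.log ‖b‖ - Real.log ‖a ^ 2 - 4 * b‖) / 6 := by
  have b4 : ‖(4 : K)‖ = 1 := by
    rw [show (4 : K) = 2 * 2 by norm_num, norm_mul, b2, one_mul]
  have hs' : (-s) ^ 2 = b := by rw [neg_sq, hs]
  have h1 := step_ne hb hab hs
  have h2 := step_ne hb hab hs'
  obtain ⟨h3, h4⟩ := log_step hb hab hs
  rw [b4, Real.log_one] at h3
  rw [Fu_odd b2 hb hab, Fu_odd b2 h1.1 h1.2, Fu_odd b2 h2.1 h2.2, Mx_step b4 hs, Mx_step b4 hs']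
  linear_combination (-1 / 6) * h3 - (1 / 12) * h4

theorem two_facts (b2 : ‖(2 : K)‖ = 1 / 2) (ha : ‖a‖ = 1) (hb1 : ‖b‖ ≤ 1) :
    ‖a ^ 2 - 4 * b‖ = 1 := by
  have b4 : ‖(4 : K)‖ = 1 / 4 := by
    rw [show (4 : K) = 2 * 2 by norm_num, norm_mul, b2]
    norm_num
  have h1 : ‖(4 : K) * b‖ ≤ 1 / 4 := by
    rw [norm_mul, b4]
    linarith
  have h2 : ‖a ^ 2‖ = 1 := by rw [norm_pow, ha, one_pow]
  apply le_antisymm
  · exact (ns _ _).trans (max_le h2.le (h1.trans (by norm_num)))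
  · have h3 : ‖a ^ 2‖ ≤ max ‖a ^ 2 - 4 * b‖ ‖4 * b‖ := by
      calc ‖a ^ 2‖ = ‖(a ^ 2 - 4 * b) + 4 * b‖ := by rw [sub_add_cancel]
        _ ≤ _ := nn _ _
    rw [h2] at h3
    rcases le_max_iff.1 h3 with h4 | h4
    · exact h4
    · linarith

theorem two_inv (b2 : ‖(2 : K)‖ = 1 / 2) (ha : ‖a‖ = 1) (hb1 : ‖b‖ ≤ 1) (hs : s ^ 2 = b) :
    ‖a + 6 * s‖ = 1 ∧ ‖4 * s * (a + 2 * s)‖ ≤ 1 := by
  have hs1 : ‖s‖ ≤ 1 := by
    rw [← hs, norm_pow] at hb1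
    nlinarith [norm_nonneg s]
  have h3 : ‖(3 : K) * s‖ ≤ ‖s‖ := by
    have := mul_nat_le 3 s
    exact_mod_cast this
  have h6 : ‖(6 : K) * s‖ ≤ 1 / 2 := by
    rw [show (6 : K) * s = 2 * (3 * s) by ring, norm_mul, b2]
    linarith
  constructor
  · apply le_antisymm
    · exact (nn _ _).trans (max_le ha.le (h6.trans (by norm_num)))
    · have h5 : ‖a‖ ≤ max ‖a + 6 * s‖ ‖6 * s‖ := by
        calc ‖a‖ = ‖(a + 6 * s) - 6 * s‖ := by rw [add_sub_cancel_right]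
          _ ≤ _ := ns _ _
      rw [ha] at h5
      rcases le_max_iff.1 h5 with h4 | h4
      · exact h4
      · linarith
  · have h2s : ‖(2 : K) * s‖ ≤ ‖s‖ := by
      have := mul_nat_le 2 s
      exact_mod_cast this
    have h7 : ‖a + 2 * s‖ ≤ 1 := (nn _ _).trans (max_le ha.le (h2s.trans hs1))
    have h8 : ‖(4 : K) * s‖ ≤ 1 := by
      have := mul_nat_le 4 s
      exact le_trans (by exact_mod_cast this) hs1
    rw [norm_mul]
    exact mul_le_one₀ h8 (norm_nonneg _) h7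

theorem Fu_two (b2 : ‖(2 : K)‖ = 1 / 2) (ha : ‖a‖ = 1) (hb1 : ‖b‖ ≤ 1) (hb : b ≠ 0) :
    -Real.log ‖b‖ / 6 - 2 / 3 * Real.log 2 ≤ Fu a b ∧ Fu a b ≤ -Real.log ‖b‖ / 6 := by
  have h0 := two_facts b2 ha hb1
  have h1 : 0 < ‖b‖ := norm_pos_iff.2 hb
  have b16 : ‖(16 : K)‖ = 1 / 16 := by
    rw [show (16 : K) = 2 ^ 4 by norm_num, norm_pow, b2]
    norm_num
  have e1 : ‖(cu a b).c₄ ^ 3 / (cu a b).Δ‖ = ‖a ^ 2 - 3 * b‖ ^ 3 / (2 ^ 8 * ‖b‖ ^ 2) := by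
    rw [cu_disc, cu_c4, norm_div, norm_pow, norm_mul, norm_mul, norm_mul, norm_pow, b16, h0]
    field_simp
    ring
  have h3b : ‖(3 : K) * b‖ ≤ ‖b‖ := by
    have := mul_nat_le 3 b
    exact_mod_cast this
  have h2 : ‖a ^ 2‖ = 1 := by rw [norm_pow, ha, one_pow]
  have h5 : ‖a ^ 2 - 3 * b‖ ≤ 1 := (ns _ _).trans (max_le h2.le (h3b.trans hb1))
  have h6 : (1 : ℝ) ≤ 1 / ‖b‖ ^ 2 := by
    rw [le_div_iff₀ (by positivity)]
    nlinarith
  have up : max 1 ‖(cu a b).c₄ ^ 3 / (cu a b).Δ‖ ≤ 1 / ‖b‖ ^ 2 := by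
    apply max_le h6
    rw [e1, div_le_div_iff₀ (by positivity) (by positivity)]
    have h7 : ‖a ^ 2 - 3 * b‖ ^ 3 ≤ 1 := pow_le_one₀ (norm_nonneg _) h5
    nlinarith [sq_nonneg ‖b‖]
  have lo : 1 / (2 ^ 8 * ‖b‖ ^ 2) ≤ max 1 ‖(cu a b).c₄ ^ 3 / (cu a b).Δ‖ := by
    rcases lt_or_eq_of_le hb1 with h | h
    · have h8 : 1 ≤ ‖a ^ 2 - 3 * b‖ := by
        have h3 : ‖a ^ 2‖ ≤ max ‖a ^ 2 - 3 * b‖ ‖3 * b‖ := by
          calc ‖a ^ 2‖ = ‖(a ^ 2 - 3 * b) + 3 * b‖ := by rw [sub_add_cancel]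
            _ ≤ _ := nn _ _
        rw [h2] at h3
        rcases le_max_iff.1 h3 with h4 | h4
        · exact h4
        · exact absurd (h4.trans h3b) (not_le.2 h)
      apply le_max_of_le_right
      rw [e1]
      have h9 : 1 ≤ ‖a ^ 2 - 3 * b‖ ^ 3 := one_le_pow₀ h8
      gcongr
    · apply le_max_of_le_left
      rw [h]
      norm_num
  unfold Fu
  have hpos : (0 : ℝ) < max 1 ‖(cu a b).c₄ ^ 3 / (cu a b).Δ‖ := lt_of_lt_of_le one_pos (le_max_left _ _)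
  have l1 : Real.log (max 1 ‖(cu a b).c₄ ^ 3 / (cu a b).Δ‖) ≤ -2 * Real.log ‖b‖ := by
    have := Real.log_le_log hpos up
    rw [Real.log_div one_ne_zero (by positivity), Real.log_one, Real.log_pow] at this
    push_cast at this
    linarith
  have l2 : -2 * Real.log ‖b‖ - 8 * Real.log 2 ≤
      Real.log (max 1 ‖(cu a b).c₄ ^ 3 / (cu a b).Δ‖) := by
    have := Real.log_le_log (by positivity) lo
    rw [Real.log_div one_ne_zero (by positivity), Real.log_one,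
      Real.log_mul (by norm_num) (by positivity), Real.log_pow, Real.log_pow] at this
    push_cast at this
    linarith
  constructor <;> linarith

end ultra

end Pool.Agent.L0h51.HG
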