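import Pool.Agent.L0h51.HG.Padic

/-!
# Iteration at the finite places, and the product formula for integers
-/

set_option autoImplicit false

namespace Pool.Agent.L0h51.HG

section ultra

variable {K : Type} [NormedField K] [IsUltrametricDist K] [CharZero K] [IsAlgClosed K] {a b : K}

theorem Fu_odd_iter (b2 : ‖(2 : K)‖ = 1) (k : ℕ) (hb : b ≠ 0) (hab : a ^ 2 - 4 * b ≠ 0) :
    (op^[k] (Fu (K := K))) a b =
      2 ^ k * Fu a b + (2 ^ k - 1) * (Real.log ‖b‖ - Real.log ‖a ^ 2 - 4 * b‖) / 6 := by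
  set F : ℕ → K → K → ℝ := fun k a b =>
    2 ^ k * Fu a b + (2 ^ k - 1) * (Real.log ‖b‖ - Real.log ‖a ^ 2 - 4 * b‖) / 6 with hF
  have b4 : ‖(4 : K)‖ = 1 := by
    rw [show (4 : K) = 2 * 2 by norm_num, norm_mul, b2, one_mul]
  have key : ∀ (k : ℕ) (a b s : K), (b ≠ 0 ∧ a ^ 2 - 4 * b ≠ 0) → s ^ 2 = b → F (k + 1) a b =
      F k (a + 6 * s) (4 * s * (a + 2 * s)) + F k (a + 6 * (-s)) (4 * (-s) * (a + 2 * (-s))) := by
    intro k a b s h hs
    obtain ⟨h3, h4⟩ := log_step h.1 h.2 hs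
    rw [b4, Real.log_one] at h3
    have h5 := Fu_odd_step b2 h.1 h.2 hs
    simp only [hF]
    rw [pow_succ]
    linear_combination (-(2 : ℝ) ^ k) * h5 - ((2 ^ k - 1) / 6) * h3 + ((2 ^ k - 1) / 6) * h4
  have h := iter_bounds (K := K) (fun a b => b ≠ 0 ∧ a ^ 2 - 4 * b ≠ 0)
    (fun a b s h hs => step_ne h.1 h.2 hs) Fu F F
    (fun a b _ => by simp [hF]) (fun k a b s h hs => (key k a b s h hs).le)
    (fun k a b s h hs => (key k a b s h hs).ge) k a b ⟨hb, hab⟩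
  exact le_antisymm h.2 h.1

theorem Fu_two_iter (b2 : ‖(2 : K)‖ = 1 / 2) (k : ℕ) (ha : ‖a‖ = 1) (hb1 : ‖b‖ ≤ 1) (hb : b ≠ 0) :
    |(op^[k] (Fu (K := K))) a b - 2 ^ k * Fu a b -
      (2 ^ k - 1) * (Real.log ‖b‖ - Real.log ‖a ^ 2 - 4 * b‖ + 4 * Real.log 2) / 6| ≤
      2 ^ k * (2 / 3 * Real.log 2) := by
  set F : ℕ → K → K → ℝ := fun k _ b =>
    -Real.log ‖b‖ / 6 + (2 ^ k - 1) * (2 / 3 * Real.log 2) with hF
  have b4 : ‖(4 : K)‖ = 1 / 2 ^ 2 := by
    rw [show (4 : K) = 2 * 2 by norm_num, norm_mul, b2]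
    norm_num
  have l4 : Real.log ‖(4 : K)‖ = -(2 * Real.log 2) := by
    rw [b4, Real.log_div one_ne_zero (by norm_num), Real.log_one, Real.log_pow]
    push_cast
    ring
  have key : ∀ (k : ℕ) (a b s : K), (‖a‖ = 1 ∧ ‖b‖ ≤ 1 ∧ b ≠ 0) → s ^ 2 = b → F (k + 1) a b =
      F k (a + 6 * s) (4 * s * (a + 2 * s)) + F k (a + 6 * (-s)) (4 * (-s) * (a + 2 * (-s))) := by
    intro k a b s h hs
    have h0 := two_facts b2 h.1 h.2.1
    have h1 : a ^ 2 - 4 * b ≠ 0 := by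
      rw [← norm_ne_zero_iff, h0]
      exact one_ne_zero
    obtain ⟨h3, h4⟩ := log_step h.2.2 h1 hs
    rw [l4, h0, Real.log_one] at h3
    simp only [hF]
    rw [pow_succ]
    linear_combination (1 / 6) * h3
  have hinv : ∀ a b s : K, (‖a‖ = 1 ∧ ‖b‖ ≤ 1 ∧ b ≠ 0) → s ^ 2 = b →
      (‖a + 6 * s‖ = 1 ∧ ‖4 * s * (a + 2 * s)‖ ≤ 1 ∧ 4 * s * (a + 2 * s) ≠ 0) := by
    intro a b s h hs
    have h0 := two_facts b2 h.1 h.2.1
    have h1 : a ^ 2 - 4 * b ≠ 0 := by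
      rw [← norm_ne_zero_iff, h0]
      exact one_ne_zero
    have h2 := two_inv b2 h.1 h.2.1 hs
    exact ⟨h2.1, h2.2, (step_ne h.2.2 h1 hs).1⟩
  have h := iter_bounds (K := K) (fun a b => ‖a‖ = 1 ∧ ‖b‖ ≤ 1 ∧ b ≠ 0)
    hinv Fu (fun k a b => F k a b - 2 ^ k * (2 / 3 * Real.log 2)) F
    (fun a b h => by
      have := Fu_two b2 h.1 h.2.1 h.2.2
      simp only [hF, pow_zero, sub_self, zero_mul, add_zero, one_mul]
      exact this)
    (fun k a b s h hs => by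
      have := key k a b s h hs
      show F (k + 1) a b - 2 ^ (k + 1) * (2 / 3 * Real.log 2) ≤
        (F k (a + 6 * s) (4 * s * (a + 2 * s)) - 2 ^ k * (2 / 3 * Real.log 2)) +
        (F k (a + 6 * (-s)) (4 * (-s) * (a + 2 * (-s))) - 2 ^ k * (2 / 3 * Real.log 2))
      rw [this, pow_succ]
      apply le_of_eq
      ring)
    (fun k a b s h hs => (key k a b s h hs).ge) k a b ⟨ha, hb1, hb⟩
  have h1 := Fu_two b2 ha hb1 hb
  have h0 := two_facts b2 ha hb1
  rw [h0, Real.log_one]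
  have hk : (0 : ℝ) < 2 ^ k := by positivity
  have h2 : 2 ^ k * (-Real.log ‖b‖ / 6 - 2 / 3 * Real.log 2) ≤ 2 ^ k * Fu a b :=
    mul_le_mul_of_nonneg_left h1.1 hk.le
  have h3 : 2 ^ k * Fu a b ≤ 2 ^ k * (-Real.log ‖b‖ / 6) := mul_le_mul_of_nonneg_left h1.2 hk.le
  obtain ⟨h4, h5⟩ := h
  simp only [hF] at h4 h5
  rw [abs_le]
  constructor <;> nlinarith

end ultra

/-- the logarithm of the `p`-adic absolute value of an integer -/
theorem log_norm_int (p : ℕ) [hp : Fact p.Prime] {n : ℤ} (hn : n ≠ 0) :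
    Real.log ‖(n : PadicAlgCl p)‖ = -(n.natAbs.factorization p * Real.log p) := by
  have h1 : ‖(n : PadicAlgCl p)‖ = ‖(n : ℚ_[p])‖ := by
    have := PadicAlgCl.norm_extends p (n : ℚ_[p])
    rw [← this]
    congr 1
  have h2 : ‖(n : ℚ_[p])‖ = ((padicNorm p (n : ℚ) : ℚ) : ℝ) := by
    rw [← Padic.eq_padicNorm]
    norm_num
  have h3 : padicValRat p (n : ℚ) = ((n.natAbs.factorization p : ℕ) : ℤ) := by
    rw [padicValRat.of_int, padicValInt, Nat.factorization_def _ hp.out]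
  rw [h1, h2, padicNorm.eq_zpow_of_nonzero (by exact_mod_cast hn), h3]
  push_cast
  rw [Real.log_zpow]
  push_cast
  ring

theorem norm_int_odd (p : ℕ) [hp : Fact p.Prime] {n : ℤ} (h : ¬ (p : ℤ) ∣ n) :
    ‖(n : PadicAlgCl p)‖ = 1 := by
  have h1 : ‖(n : PadicAlgCl p)‖ = ‖(n : ℚ_[p])‖ := by
    have := PadicAlgCl.norm_extends p (n : ℚ_[p])
    rw [← this]
    congr 1
  rw [h1]
  exact (Padic.norm_intCast_eq_one_iff).2 (by
    have := (Nat.Prime.coprime_iff_not_dvd (n := n.natAbs) hp.out).2 (by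
      rwa [Int.natCast_dvd] at h)
    rw [Int.isCoprime_iff_gcd_eq_one]
    simpa [Int.gcd, Nat.gcd_comm] using this)

/-- the product formula for an integer all of whose prime divisors divide `N` -/
theorem prod_formula {N : ℕ} {n : ℤ} (hn : n ≠ 0)
    (h : ∀ p : ℕ, p.Prime → (p : ℤ) ∣ n → p ∣ N) (hN : N ≠ 0) :
    Real.log |(n : ℝ)| =
      ∑ p ∈ N.primeFactors, (n.natAbs.factorization p * Real.log p : ℝ) := by
  have hn' : n.natAbs ≠ 0 := Int.natAbs_ne_zero.2 hn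
  have h1 : |(n : ℝ)| = (n.natAbs : ℝ) := by
    rw [Nat.cast_natAbs, Int.cast_abs]
  have h2 : n.natAbs.primeFactors ⊆ N.primeFactors := by
    intro p hp
    rw [Nat.mem_primeFactors] at hp ⊢
    exact ⟨hp.1, h p hp.1 (Int.natCast_dvd.2 hp.2.1), hN⟩
  rw [h1]
  have h3 : (n.natAbs : ℝ) = ∏ p ∈ n.natAbs.primeFactors, (p : ℝ) ^ (n.natAbs.factorization p) := by
    have := Nat.prod_factorization_pow_eq_self hn'
    conv_lhs => rw [← this]
    rw [Finsupp.prod, Nat.support_factorization]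
    push_cast
    rfl
  conv_lhs => rw [h3]
  rw [Real.log_prod]
  · rw [← Finset.sum_subset h2]
    · refine Finset.sum_congr rfl fun p _ => ?_
      rw [Real.log_pow]
    · intro p _ hp
      have : n.natAbs.factorization p = 0 := by
        rw [← Finsupp.notMem_support_iff, Nat.support_factorization]
        exact hp
      rw [this]
      norm_num
  · intro p hp
    have := (Nat.prime_of_mem_primeFactors hp).pos
    positivity

end Pool.Agent.L0h51.HG
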