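import Pool.Agent.L0h51.HG.Main

/-!
# Abelian schemes of every dimension with large height
-/

set_option autoImplicit false

namespace Pool.Agent.L0h51.HG

/-- the empty product -/
noncomputable def AbScheme.nil (N : ℕ) : AbScheme N where
  I := Empty
  fin := inferInstance
  R := fun i => i.elim
  ring := fun i => i.elim
  alg := fun i => i.elim
  etale := fun i => i.elim
  finite := fun i => i.elim
  free := fun i => i.elim
  W := fun i => i.elim
  unit := fun i => i.elim

/-- one more factor -/
noncomputable def AbScheme.add {N : ℕ} (A : AbScheme N) (R : Type) (c : CommRing R)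
    (al : Algebra (Base N) R) (e : Algebra.Etale (Base N) R) (f : Module.Finite (Base N) R)
    (fr : Module.Free (Base N) R) (W : WeierstrassCurve R) (hW : IsUnit W.Δ) : AbScheme N where
  I := Option A.I
  fin := inferInstance
  R := fun i => match i with
    | none => R
    | some j => A.R j
  ring := fun i => match i with
    | none => c
    | some j => A.ring j
  alg := fun i => match i with
    | none => al
    | some j => A.alg j
  etale := fun i => match i with
    | none => e
    | some j => A.etale j
  finite := fun i => match i with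
    | none => f
    | some j => A.finite j
  free := fun i => match i with
    | none => fr
    | some j => A.free j
  W := fun i => match i with
    | none => W
    | some j => A.W j
  unit := fun i => match i with
    | none => hW
    | some j => A.unit j

section add

variable {N : ℕ} (A : AbScheme N) (R : Type) (c : CommRing R)
    (al : Algebra (Base N) R) (e : Algebra.Etale (Base N) R) (f : Module.Finite (Base N) R)
    (fr : Module.Free (Base N) R) (W : WeierstrassCurve R) (hW : IsUnit W.Δ)

theorem AbScheme.dim_add : (A.add R c al e f fr W hW).dim = Module.finrank (Base N) R + A.dim :=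
  Fintype.sum_option _

theorem AbScheme.hF_add : (A.add R c al e f fr W hW).hF = height N R W + A.hF :=
  Fintype.sum_option _

end add

theorem entropy {m r : ℝ} (hm : 0 < m) (hr : 0 ≤ r) (hrm : r ≤ m) :
    (m + r) * Real.log (m + r) ≤ m * Real.log m + r * Real.log r + 2 * m * Real.log 2 := by
  rcases hr.eq_or_lt with h0 | h0
  · rw [← h0]
    simp only [add_zero, zero_mul, Real.log_zero, mul_zero]
    have := mul_nonneg hm.le (Real.log_nonneg (one_le_two (α := ℝ)))
    linarith
  · have h1 : Real.log (m + r) = Real.log m + Real.log (1 + r / m) := by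
      rw [← Real.log_mul hm.ne' (by positivity)]
      congr 1
      field_simp
    have h2 : Real.log (m + r) = Real.log r + Real.log (1 + m / r) := by
      rw [← Real.log_mul h0.ne' (by positivity)]
      congr 1
      field_simp
      ring
    have h3 : Real.log (1 + r / m) ≤ Real.log 2 := by
      apply Real.log_le_log (by positivity)
      have : r / m ≤ 1 := (div_le_one hm).2 hrm
      linarith
    have h4 : r * Real.log (1 + m / r) ≤ m * Real.log 2 := by
      have h5 : 1 + m / r ≤ (2 : ℝ) ^ (m / r) := by
        have h6 : 1 ≤ m / r := (one_le_div h0).2 hrm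
        have := one_add_mul_self_le_rpow_one_add (s := 1) (by norm_num) h6
        norm_num at this
        exact this
      have h7 : Real.log (1 + m / r) ≤ m / r * Real.log 2 := by
        have := Real.log_le_log (by positivity) h5
        rwa [Real.log_rpow (by norm_num)] at this
      calc r * Real.log (1 + m / r) ≤ r * (m / r * Real.log 2) :=
            mul_le_mul_of_nonneg_left h7 h0.le
        _ = m * Real.log 2 := by
            field_simp
    have h8 : m * Real.log (1 + r / m) ≤ m * Real.log 2 := mul_le_mul_of_nonneg_left h3 hm.le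
    calc (m + r) * Real.log (m + r) = m * Real.log (m + r) + r * Real.log (m + r) := by ring
      _ = m * (Real.log m + Real.log (1 + r / m)) + r * (Real.log r + Real.log (1 + m / r)) := by
          rw [← h1, ← h2]
      _ ≤ _ := by
          rw [mul_add, mul_add]
          linarith

variable {N : ℕ} {a b : ℤ}

theorem level_curve (hN : N ≠ 0) (h2N : 2 ∣ N) (k : ℕ)
    (T : Level (Base N) (a : Base N) (b : Base N) k) :
    letI := T.ring
    IsUnit (cu T.x T.y).Δ := by
  letI := T.ring
  letI := T.alg
  rw [cu_disc]
  have h2 : IsUnit (2 : T.R) := by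
    have h := (unit_dvd (N := N) h2N).map (algebraMap (Base N) T.R)
    rwa [Nat.cast_ofNat, map_ofNat] at h
  have h16 : IsUnit (16 : T.R) := by
    have : (16 : T.R) = 2 ^ 4 := by norm_num
    rw [this]
    exact h2.pow 4
  exact (h16.mul (T.unity.pow 2)).mul T.unitd

theorem exists_tower (hN : N ≠ 0) (h2N : 2 ∣ N) (hb : b ≠ 0)
    (hab : a ^ 2 - 4 * b ≠ 0) (hpr : ∀ p : ℕ, p.Prime → (p : ℤ) ∣ b * (a ^ 2 - 4 * b) → p ∣ N)
    (k : ℕ) : Nonempty (Level (Base N) (a : Base N) (b : Base N) k) := by
  haveI := base_nontrivial hN
  have h2 : IsUnit (2 : Base N) := by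
    have h := unit_dvd (N := N) h2N
    rwa [Nat.cast_ofNat] at h
  have hb' := unit_int hb (fun p hp h => hpr p hp (h.mul_right _))
  have hab' := unit_int hab (fun p hp h => hpr p hp (h.mul_left _))
  push_cast at hab'
  exact exists_level h2 hb' hab' k

theorem exists_all (hN : N ≠ 0) (h2N : 2 ∣ N) (ha : ¬ (2 : ℤ) ∣ a) (hb : b ≠ 0)
    (hab : a ^ 2 - 4 * b ≠ 0) (hpr : ∀ p : ℕ, p.Prime → (p : ℤ) ∣ b * (a ^ 2 - 4 * b) → p ∣ N)
    (g : ℕ) : ∃ A : AbScheme N, A.dim = g ∧
      g * (height N (Base N) (cu (a : Base N) (b : Base N)) + Real.log g / 2 -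
        5 / 3 * Real.log 2) ≤ A.hF := by
  induction g using Nat.strong_induction_on with
  | _ g ih =>
    rcases Nat.eq_zero_or_pos g with h0 | h0
    · refine ⟨AbScheme.nil N, ?_, ?_⟩
      · rw [h0]
        rfl
      · rw [h0]
        have : (AbScheme.nil N).hF = 0 := rfl
        rw [this]
        simp
    · set k := Nat.log 2 g with hk
      have h1 : 2 ^ k ≤ g := Nat.pow_log_le_self 2 h0.ne'
      have h2 : g < 2 ^ (k + 1) := Nat.lt_pow_succ_log_self (by norm_num) g
      have h3 : 0 < 2 ^ k := by positivity
      obtain ⟨A, hA1, hA2⟩ := ih (g - 2 ^ k) (by omega)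
      obtain ⟨T⟩ := exists_tower hN h2N hb hab hpr k
      have hT := height_tower hN h2N ha hb hab hpr k T
      refine ⟨A.add T.R T.ring T.alg T.etale T.finite T.free (@cu T.R T.ring T.x T.y)
        (level_curve hN h2N k T), ?_, ?_⟩
      · rw [AbScheme.dim_add, T.rank, hA1]
        omega
      · rw [AbScheme.hF_add]
        have h4 : ((g - 2 ^ k : ℕ) : ℝ) = g - 2 ^ k := by
          rw [Nat.cast_sub h1]
          push_cast
          rfl
        rw [h4] at hA2
        have h5 : (2 : ℝ) ^ k ≤ g := by exact_mod_cast h1
        have h6 : (g : ℝ) ≤ 2 * 2 ^ k := by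
          have : g ≤ 2 ^ k * 2 := by
            rw [pow_succ] at h2
            omega
          calc (g : ℝ) ≤ ((2 ^ k * 2 : ℕ) : ℝ) := by exact_mod_cast this
            _ = 2 * 2 ^ k := by
              push_cast
              ring
        have h7 := entropy (m := 2 ^ k) (r := (g : ℝ) - 2 ^ k) (by positivity) (by linarith)
          (by linarith)
        rw [Real.log_pow, show (2 : ℝ) ^ k + ((g : ℝ) - 2 ^ k) = g by ring] at h7
        have h8 := (abs_le.1 hT).1
        nlinarith

end Pool.Agent.L0h51.HG
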