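import Mathlib

/-!
# Towers of finite étale algebras of degree `2 ^ k`

Starting from a ring with elements `a`, `b`, such that `2`, `b` and `a² - 4 b` are units, we adjoin a square root `s` of `b`
and pass to `a + 6 s`, `4 s (a + 2 s)`.
-/

set_option autoImplicit false

namespace Pool.Agent.L0h51.HG

open Polynomial

section ext

variable {R : Type} [CommRing R]

/-- the polynomial `X² - b` -/
noncomputable def qp (b : R) : R[X] := X ^ 2 - C b

theorem qp_monic (b : R) : (qp b).Monic := monic_X_pow_sub_C b (by norm_num)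

/-- the ring `R[√b]` -/
abbrev Ad (b : R) : Type := AdjoinRoot (qp b)

/-- the square root -/
noncomputable def sq (b : R) : Ad b := AdjoinRoot.root (qp b)

theorem aeval_qp {S : Type} [CommRing S] [Algebra R S] (x : S) (b : R) :
    aeval x (qp b) = x ^ 2 - algebraMap R S b := by
  unfold qp
  rw [map_sub, map_pow, aeval_X, aeval_C]

theorem aeval_sq (b : R) : aeval (sq b) (qp b) = 0 := by
  unfold sq
  rw [AdjoinRoot.aeval_eq, AdjoinRoot.mk_self]

theorem sq_sq (b : R) : sq b ^ 2 = algebraMap R (Ad b) b := by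
  have h := aeval_sq b
  rw [aeval_qp] at h
  exact sub_eq_zero.1 h

/-- the standard étale pair -/
noncomputable def pair (b : R) (h2 : IsUnit (2 : R)) (hb : IsUnit b) : StandardEtalePair R where
  f := qp b
  monic_f := qp_monic b
  g := 1
  cond := by
    obtain ⟨c, hc⟩ := h2.exists_right_inv
    obtain ⟨d, hd⟩ := hb.exists_right_inv
    refine ⟨C (c * d) * X, -C d, 1, ?_⟩
    have e1 : derivative (qp b) = C 2 * X := by
      unfold qp
      rw [derivative_sub, derivative_C, sub_zero, derivative_X_pow]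
      norm_num
    rw [e1, qp]
    have e2 : (C 2 * X * (C (c * d) * X) + (X ^ 2 - C b) * -C d : R[X]) =
        C (2 * c) * C d * X ^ 2 - C d * X ^ 2 + C (b * d) := by
      rw [C_mul, C_mul, C_mul]
      ring
    rw [e2, hc, hd]
    simp

theorem etale_step (b : R) (h2 : IsUnit (2 : R)) (hb : IsUnit b) : Algebra.Etale R (Ad b) := by
  have hx : (pair b h2 hb).HasMap (S := Ad b) (sq b) := by
    refine ⟨?_, ?_⟩
    · exact aeval_sq b
    · show IsUnit (aeval (sq b) (1 : R[X]))
      simp
  have hX := (pair b h2 hb).hasMap_X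
  have hz : aeval (pair b h2 hb).X (qp b) = 0 := hX.1
  let e : (pair b h2 hb).Ring ≃ₐ[R] Ad b :=
    AlgEquiv.ofAlgHom ((pair b h2 hb).lift (sq b) hx)
      (AdjoinRoot.liftAlgHom (qp b) (Algebra.ofId R _) (pair b h2 hb).X (by
        rw [← hz]
        rfl))
      (by
        apply AdjoinRoot.algHom_ext
        simp [sq])
      (by
        apply StandardEtalePair.hom_ext
        simp [sq])
  exact Algebra.Etale.of_equiv e

theorem free_step (b : R) : Module.Free R (Ad b) := (qp_monic b).free_adjoinRoot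

theorem finite_step (b : R) : Module.Finite R (Ad b) := (qp_monic b).finite_adjoinRoot

theorem finrank_step [Nontrivial R] (b : R) : Module.finrank R (Ad b) = 2 := by
  have h := (AdjoinRoot.powerBasis' (qp_monic b)).finrank
  rw [h, AdjoinRoot.powerBasis'_dim]
  exact natDegree_X_pow_sub_C

section homs

variable {K : Type} [Field K] [IsAlgClosed K] [CharZero K]

/-- a square root -/
noncomputable def rt (z : K) : K := (IsAlgClosed.exists_pow_nat_eq z (n := 2) (by norm_num)).choose

theorem rt_sq (z : K) : rt z ^ 2 = z :=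
  (IsAlgClosed.exists_pow_nat_eq z (n := 2) (by norm_num)).choose_spec

/-- the homomorphism with given values -/
noncomputable def hom (b : R) (σ : R →+* K) (t : K) (ht : t ^ 2 = σ b) : Ad b →+* K :=
  AdjoinRoot.lift σ t (by
    unfold qp
    rw [eval₂_sub, eval₂_pow, eval₂_X, eval₂_C, ht, sub_self])

theorem hom_comp (b : R) (σ : R →+* K) (t : K) (ht : t ^ 2 = σ b) :
    (hom b σ t ht).comp (algebraMap R (Ad b)) = σ := by
  refine RingHom.ext fun x => ?_
  show hom b σ t ht (AdjoinRoot.of (qp b) x) = σ x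
  exact AdjoinRoot.lift_of (f := qp b) _

theorem hom_sq (b : R) (σ : R →+* K) (t : K) (ht : t ^ 2 = σ b) :
    hom b σ t ht (sq b) = t := AdjoinRoot.lift_root _

theorem hom_ext' {b : R} {τ τ' : Ad b →+* K}
    (h1 : τ.comp (algebraMap R (Ad b)) = τ'.comp (algebraMap R (Ad b)))
    (h2 : τ (sq b) = τ' (sq b)) : τ = τ' := by
  have h3 : ∀ f : R[X], τ (AdjoinRoot.mk (qp b) f) = τ' (AdjoinRoot.mk (qp b) f) := by
    intro f
    have h4 : AdjoinRoot.mk (qp b) f = f.eval₂ (AdjoinRoot.of (qp b)) (AdjoinRoot.root (qp b)) := by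
      rw [← AdjoinRoot.aeval_eq]
      rfl
    rw [h4, hom_eval₂, hom_eval₂]
    have h5 : τ.comp (AdjoinRoot.of (qp b)) = τ'.comp (AdjoinRoot.of (qp b)) := h1
    have h6 : τ (AdjoinRoot.root (qp b)) = τ' (AdjoinRoot.root (qp b)) := h2
    rw [h5, h6]
  refine RingHom.ext fun x => ?_
  obtain ⟨f, rfl⟩ := AdjoinRoot.mk_surjective x
  exact h3 f

/-- the parametrisation of the homomorphisms -/
noncomputable def par (b : R) (x : (R →+* K) × Bool) : Ad b →+* K :=
  if x.2 then hom b x.1 (rt (x.1 b)) (rt_sq _)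
  else hom b x.1 (-rt (x.1 b)) (by rw [neg_sq, rt_sq])

theorem par_comp (b : R) (x : (R →+* K) × Bool) :
    (par b x).comp (algebraMap R (Ad b)) = x.1 := by
  unfold par
  split_ifs
  · exact hom_comp _ _ _ _
  · exact hom_comp _ _ _ _

theorem par_true (b : R) (σ : R →+* K) : par b (σ, true) (sq b) = rt (σ b) := by
  unfold par
  rw [if_pos rfl]
  exact hom_sq _ _ _ _

theorem par_false (b : R) (σ : R →+* K) : par b (σ, false) (sq b) = -rt (σ b) := by
  unfold par
  rw [if_neg (by simp)]
  exact hom_sq _ _ _ _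

theorem par_bij {b : R} (hb : IsUnit b) : Function.Bijective (par (K := K) b) := by
  constructor
  · rintro ⟨σ, i⟩ ⟨σ', i'⟩ h
    have h1 : (par b (σ, i)).comp (algebraMap R (Ad b)) =
        (par b (σ', i')).comp (algebraMap R (Ad b)) := by rw [h]
    have h2 : par b (σ, i) (sq b) = par b (σ', i') (sq b) := by rw [h]
    rw [par_comp, par_comp] at h1
    have h3 : σ = σ' := h1
    subst h3
    have h4 : rt (σ b) ≠ 0 := by
      intro h0
      have h5 := rt_sq (σ b)
      rw [h0] at h5
      have h6 : IsUnit (σ b) := hb.map σ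
      rw [← h5] at h6
      simp at h6
    cases i <;> cases i'
    · rfl
    · exfalso
      rw [par_true, par_false] at h2
      apply h4
      have h7 : (2 : K) * rt (σ b) = 0 := by linear_combination -h2
      exact (mul_eq_zero.1 h7).resolve_left two_ne_zero
    · exfalso
      rw [par_true, par_false] at h2
      apply h4
      have h7 : (2 : K) * rt (σ b) = 0 := by linear_combination h2
      exact (mul_eq_zero.1 h7).resolve_left two_ne_zero
    · rfl
  · intro τ
    have h1 : τ (sq b) ^ 2 = (τ.comp (algebraMap R (Ad b))) b := by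
      rw [← map_pow, sq_sq]
      rfl
    have h2 : (τ (sq b) - rt ((τ.comp (algebraMap R (Ad b))) b)) *
        (τ (sq b) + rt ((τ.comp (algebraMap R (Ad b))) b)) = 0 := by
      have := rt_sq ((τ.comp (algebraMap R (Ad b))) b)
      linear_combination h1 - this
    rcases mul_eq_zero.1 h2 with h3 | h3
    · refine ⟨(τ.comp (algebraMap R (Ad b)), true), ?_⟩
      apply hom_ext'
      · exact par_comp _ _
      · rw [par_true]
        exact (sub_eq_zero.1 h3).symm
    · refine ⟨(τ.comp (algebraMap R (Ad b)), false), ?_⟩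
      apply hom_ext'
      · exact par_comp _ _
      · rw [par_false]
        exact (eq_neg_of_add_eq_zero_left h3).symm

theorem homs {b : R} (hb : IsUnit b) (hfin : Finite (R →+* K)) :
    Finite (Ad b →+* K) ∧ ∀ Ψ : (R →+* K) → K → ℝ,
      ∑ᶠ τ : Ad b →+* K, Ψ (τ.comp (algebraMap R (Ad b))) (τ (sq b)) =
      ∑ᶠ σ : R →+* K, (Ψ σ (rt (σ b)) + Ψ σ (-rt (σ b))) := by
  classical
  let e : (R →+* K) × Bool ≃ (Ad b →+* K) := Equiv.ofBijective _ (par_bij hb)
  have h1 : Finite (Ad b →+* K) := Finite.of_equiv _ e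
  refine ⟨h1, fun Ψ => ?_⟩
  haveI := Fintype.ofFinite (R →+* K)
  haveI := Fintype.ofFinite (Ad b →+* K)
  rw [finsum_eq_sum_of_fintype, finsum_eq_sum_of_fintype, ← e.sum_comp, Fintype.sum_prod_type]
  refine Finset.sum_congr rfl fun σ _ => ?_
  rw [Fintype.sum_bool]
  show Ψ ((par b (σ, true)).comp _) (par b (σ, true) (sq b)) +
    Ψ ((par b (σ, false)).comp _) (par b (σ, false) (sq b)) = _
  rw [par_comp, par_comp, par_true, par_false]

end homs

end ext

end Pool.Agent.L0h51.HG
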