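import Mathlib

/-!
# The area integral of an elliptic curve with a point of order two and of its quotient

`J a b = ∫ d²x / |x (x² + a x + b)|`. The map `x ↦ x + a + b / x` gives `J a b = 2 J (-2 a) (a² - 4 b)`.
-/

set_option autoImplicit false

namespace Pool.Agent.L0h51.HG

open MeasureTheory Set ENNReal

/-- `∫ d²x / |x (x² + a x + b)|` -/
noncomputable def J (a b : ℂ) : ℝ≥0∞ :=
  ∫⁻ x : ℂ, ENNReal.ofReal (1 / ‖x * (x ^ 2 + a * x + b)‖)

/-- change of variables for an injective holomorphic map -/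
theorem lint_holo {s : Set ℂ} (hs : MeasurableSet s) {f : ℂ → ℂ} {f' : ℂ → ℂ}
    (hf : ∀ x ∈ s, HasDerivAt f (f' x) x) (hinj : InjOn f s) (g : ℂ → ℝ≥0∞) :
    ∫⁻ x in f '' s, g x = ∫⁻ x in s, ENNReal.ofReal (‖f' x‖ ^ 2) * g (f x) := by
  have h1 : ∀ x ∈ s, HasFDerivWithinAt f
      ((ContinuousLinearMap.toSpanSingleton ℂ (f' x)).restrictScalars ℝ) s x := fun x hx =>
    ((hf x hx).hasFDerivAt.restrictScalars ℝ).hasFDerivWithinAt
  rw [lintegral_image_eq_lintegral_abs_det_fderiv_mul volume hs h1 hinj g]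
  refine setLIntegral_congr_fun hs fun x hx => ?_
  congr 2
  have h2 : ((ContinuousLinearMap.toSpanSingleton ℂ (f' x)).restrictScalars ℝ).det = ‖f' x‖ ^ 2 := by
    have h3 : ((ContinuousLinearMap.toSpanSingleton ℂ (f' x)).restrictScalars ℝ).det =
        LinearMap.det (((ContinuousLinearMap.toSpanSingleton ℂ (f' x)).toLinearMap).restrictScalars ℝ) := rfl
    rw [h3, LinearMap.det_restrictScalars]
    have h4 : LinearMap.det ((ContinuousLinearMap.toSpanSingleton ℂ (f' x)).toLinearMap) = f' x := by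
      have h5 : (ContinuousLinearMap.toSpanSingleton ℂ (f' x)).toLinearMap =
          (f' x) • (LinearMap.id : ℂ →ₗ[ℂ] ℂ) := by
        ext
        simp
      rw [h5, LinearMap.det_smul]
      simp
    rw [h4, Algebra.norm_complex_eq]
    simp [Complex.normSq_eq_norm_sq]
  rw [h2, abs_of_nonneg (by positivity)]


/-- the outer region -/
def Dout (b : ℂ) : Set ℂ := {x | ‖b‖ < ‖x‖ ^ 2}

/-- the inner region -/
def Din (b : ℂ) : Set ℂ := {x | x ≠ 0 ∧ ‖x‖ ^ 2 < ‖b‖}

theorem meas_out (b : ℂ) : MeasurableSet (Dout b) :=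
  (isOpen_lt continuous_const (continuous_norm.pow 2)).measurableSet

theorem meas_in (b : ℂ) : MeasurableSet (Din b) := by
  exact (IsOpen.inter isOpen_ne
    (isOpen_lt (continuous_norm.pow 2) continuous_const)).measurableSet

theorem circle_null (b : ℂ) : volume {x : ℂ | ‖x‖ ^ 2 = ‖b‖} = 0 := by
  have h : {x : ℂ | ‖x‖ ^ 2 = ‖b‖} ⊆ Metric.sphere 0 (Real.sqrt ‖b‖) := by
    intro x hx
    change ‖x‖ ^ 2 = ‖b‖ at hx
    rw [mem_sphere_zero_iff_norm, ← hx, Real.sqrt_sq (norm_nonneg x)]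
  exact measure_mono_null h (Measure.addHaar_sphere _ _ _)

variable {a b : ℂ}

theorem out_ne {x : ℂ} (hx : x ∈ Dout b) : x ≠ 0 := by
  rintro rfl
  have : ‖b‖ < 0 := by simpa [Dout] using hx
  exact absurd this (not_lt.2 (norm_nonneg b))

theorem phi_deriv {x : ℂ} (hx : x ≠ 0) :
    HasDerivAt (fun x : ℂ => x + a + b / x) (1 - b / x ^ 2) x := by
  have h1 : HasDerivAt (fun x : ℂ => b / x) (b * (-(x ^ 2)⁻¹)) x := by
    simpa [div_eq_mul_inv] using (hasDerivAt_inv hx).const_mul b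
  have h2 := ((hasDerivAt_id x).add_const a).add h1
  have e : (1 : ℂ) - b / x ^ 2 = 1 + b * -(x ^ 2)⁻¹ := by
    rw [div_eq_mul_inv]
    ring
  rw [e]
  exact h2

theorem phi_inj : InjOn (fun x : ℂ => x + a + b / x) (Dout b) := by
  intro x hx y hy hxy
  have hx0 := out_ne hx
  have hy0 := out_ne hy
  simp only at hxy
  have h1 : (x - y) * (x * y - b) = 0 := by
    field_simp at hxy
    linear_combination hxy
  rcases mul_eq_zero.1 h1 with h2 | h2
  · exact sub_eq_zero.1 h2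
  · exfalso
    have h3 : x * y = b := sub_eq_zero.1 h2
    have h4 : ‖x‖ * ‖y‖ = ‖b‖ := by rw [← norm_mul, h3]
    have hx1 : ‖b‖ < ‖x‖ ^ 2 := hx
    have hy1 : ‖b‖ < ‖y‖ ^ 2 := hy
    have : ‖b‖ ^ 2 < (‖x‖ * ‖y‖) ^ 2 := by
      rw [mul_pow, sq ‖b‖]
      exact mul_lt_mul'' hx1 hy1 (norm_nonneg _) (norm_nonneg _)
    rw [h4] at this
    exact lt_irrefl _ this

/-- the image of the outer region is everything up to a null set -/
theorem phi_img (hb : b ≠ 0) :
    volume ((fun x : ℂ => x + a + b / x) '' Dout b)ᶜ = 0 := by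
  have h : ((fun x : ℂ => x + a + b / x) '' Dout b)ᶜ ⊆
      (fun x : ℂ => x + a + b / x) '' {x : ℂ | ‖x‖ ^ 2 = ‖b‖} := by
    intro z hz
    obtain ⟨x, hx⟩ : ∃ x : ℂ, x ^ 2 - (z - a) * x + b = 0 := by
      obtain ⟨s, hs⟩ := IsAlgClosed.exists_pow_nat_eq ((z - a) ^ 2 - 4 * b) (n := 2) (by norm_num)
      refine ⟨(z - a + s) / 2, ?_⟩
      linear_combination (1 / 4 : ℂ) * hs
    have hx0 : x ≠ 0 := by
      rintro rfl
      apply hb
      simpa using hx
    have hxz : x + a + b / x = z := by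
      field_simp
      linear_combination hx
    have hy : b / x + a + b / (b / x) = z := by
      rw [div_div_cancel₀ hb]
      linear_combination hxz
    rcases lt_trichotomy (‖x‖ ^ 2) ‖b‖ with h1 | h1 | h1
    · exfalso
      apply hz
      refine ⟨b / x, ?_, hy⟩
      show ‖b‖ < ‖b / x‖ ^ 2
      have hxp : 0 < ‖x‖ ^ 2 := by positivity
      rw [norm_div, div_pow, lt_div_iff₀ hxp, sq ‖b‖]
      exact mul_lt_mul_of_pos_left h1 (norm_pos_iff.2 hb)
    · exact ⟨x, h1, hxz⟩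
    · exact absurd ⟨x, h1, hxz⟩ hz
  refine measure_mono_null h ?_
  refine addHaar_image_eq_zero_of_differentiableOn_of_addHaar_eq_zero volume ?_ (circle_null b)
  intro x hx
  have hx0 : x ≠ 0 := by
    rintro rfl
    apply hb
    have : ‖b‖ = 0 := by simpa using (hx : ‖(0 : ℂ)‖ ^ 2 = ‖b‖).symm
    exact norm_eq_zero.1 this
  exact ((phi_deriv hx0).differentiableAt.restrictScalars ℝ).differentiableWithinAt

theorem aux_cancel {c d : ℝ} (hc : c ≠ 0) : c ^ 2 * (1 / (c ^ 2 * d)) = 1 / d := by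
  by_cases hd : d = 0
  · simp [hd]
  · field_simp

theorem key {x : ℂ} (hx0 : x ≠ 0) (hx : x ^ 2 ≠ b) :
    ENNReal.ofReal (‖1 - b / x ^ 2‖ ^ 2) * ENNReal.ofReal (1 / ‖(x + a + b / x) *
      ((x + a + b / x) ^ 2 + (-2 * a) * (x + a + b / x) + (a ^ 2 - 4 * b))‖) =
    ENNReal.ofReal (1 / ‖x * (x ^ 2 + a * x + b)‖) := by
  rw [← ENNReal.ofReal_mul (by positivity)]
  congr 1
  have e1 : (x + a + b / x) * ((x + a + b / x) ^ 2 + (-2 * a) * (x + a + b / x) + (a ^ 2 - 4 * b)) =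
      (1 - b / x ^ 2) ^ 2 * (x * (x ^ 2 + a * x + b)) := by
    field_simp
    ring
  have h1 : (1 - b / x ^ 2) ≠ 0 := by
    intro h
    apply hx
    field_simp at h
    linear_combination h
  rw [e1, norm_mul, norm_pow]
  exact aux_cancel (norm_ne_zero_iff.2 h1)

theorem J_out (hb : b ≠ 0) :
    J (-2 * a) (a ^ 2 - 4 * b) =
      ∫⁻ x in Dout b, ENNReal.ofReal (1 / ‖x * (x ^ 2 + a * x + b)‖) := by
  have h1 := lint_holo (meas_out b) (f := fun x : ℂ => x + a + b / x) (f' := fun x => 1 - b / x ^ 2)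
    (fun x hx => phi_deriv (out_ne hx)) phi_inj
    (fun z => ENNReal.ofReal (1 / ‖z * (z ^ 2 + (-2 * a) * z + (a ^ 2 - 4 * b))‖))
  have h2 : J (-2 * a) (a ^ 2 - 4 * b) = ∫⁻ z in (fun x : ℂ => x + a + b / x) '' Dout b,
      ENNReal.ofReal (1 / ‖z * (z ^ 2 + (-2 * a) * z + (a ^ 2 - 4 * b))‖) := by
    unfold J
    rw [← setLIntegral_univ]
    symm
    refine setLIntegral_congr ?_
    rw [ae_eq_univ]
    exact phi_img hb
  rw [h2, h1]
  refine setLIntegral_congr_fun (meas_out b) fun x hx => ?_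
  refine key (out_ne hx) ?_
  rintro h
  have hx1 : ‖b‖ < ‖x‖ ^ 2 := hx
  rw [← norm_pow, h] at hx1
  exact lt_irrefl _ hx1

theorem inv_inj (hb : b ≠ 0) : InjOn (fun x : ℂ => b / x) (Dout b) := by
  intro x hx y hy hxy
  have hx0 := out_ne hx
  have hy0 := out_ne hy
  simp only at hxy
  field_simp at hxy
  exact hxy.symm

theorem inv_img (hb : b ≠ 0) : (fun x : ℂ => b / x) '' Dout b = Din b := by
  ext z
  constructor
  · rintro ⟨x, hx, rfl⟩
    have hx0 := out_ne hx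
    refine ⟨div_ne_zero hb hx0, ?_⟩
    have hxp : 0 < ‖x‖ ^ 2 := by positivity
    show ‖b / x‖ ^ 2 < ‖b‖
    rw [norm_div, div_pow, div_lt_iff₀ hxp, sq ‖b‖]
    exact mul_lt_mul_of_pos_left hx (norm_pos_iff.2 hb)
  · rintro ⟨hz0, hz⟩
    refine ⟨b / z, ?_, div_div_cancel₀ hb⟩
    have hzp : 0 < ‖z‖ ^ 2 := by positivity
    show ‖b‖ < ‖b / z‖ ^ 2
    rw [norm_div, div_pow, lt_div_iff₀ hzp, sq ‖b‖]
    exact mul_lt_mul_of_pos_left hz (norm_pos_iff.2 hb)

theorem J_in (hb : b ≠ 0) :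
    ∫⁻ x in Din b, ENNReal.ofReal (1 / ‖x * (x ^ 2 + a * x + b)‖) =
      ∫⁻ x in Dout b, ENNReal.ofReal (1 / ‖x * (x ^ 2 + a * x + b)‖) := by
  have hd : ∀ x ∈ Dout b, HasDerivAt (fun x : ℂ => b / x) (-b / x ^ 2) x := by
    intro x hx
    have h1 : HasDerivAt (fun x : ℂ => b / x) (b * (-(x ^ 2)⁻¹)) x := by
      simpa [div_eq_mul_inv] using (hasDerivAt_inv (out_ne hx)).const_mul b
    convert h1 using 1
    field_simp
  rw [← inv_img hb, lint_holo (meas_out b) hd (inv_inj hb)]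
  refine setLIntegral_congr_fun (meas_out b) fun x hx => ?_
  have hx0 := out_ne hx
  show ENNReal.ofReal (‖-b / x ^ 2‖ ^ 2) *
    ENNReal.ofReal (1 / ‖b / x * ((b / x) ^ 2 + a * (b / x) + b)‖) = _
  rw [← ENNReal.ofReal_mul (by positivity)]
  congr 1
  have e1 : b / x * ((b / x) ^ 2 + a * (b / x) + b) = (-b / x ^ 2) ^ 2 * (x * (x ^ 2 + a * x + b)) := by
    field_simp
    ring
  have h1 : ‖-b / x ^ 2‖ ≠ 0 := by
    rw [norm_ne_zero_iff]
    exact div_ne_zero (neg_ne_zero.2 hb) (pow_ne_zero _ hx0)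
  rw [e1, norm_mul, norm_pow]
  exact aux_cancel h1

/-- **the area integral of the quotient by the point of order two is one half** -/
theorem J_isog (hb : b ≠ 0) : J a b = 2 * J (-2 * a) (a ^ 2 - 4 * b) := by
  rw [J_out hb, two_mul]
  nth_rw 1 [← J_in hb]
  have hdis : Disjoint (Din b) (Dout b) := by
    rw [Set.disjoint_left]
    rintro x ⟨-, h1⟩ h2
    exact lt_asymm h1 h2
  rw [← lintegral_union (meas_out b) hdis]
  unfold J
  rw [← setLIntegral_univ]
  refine setLIntegral_congr ?_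
  symm
  rw [ae_eq_univ]
  have hsub : (Din b ∪ Dout b)ᶜ ⊆ {x : ℂ | ‖x‖ ^ 2 = ‖b‖} ∪ {0} := by
    intro x hx
    by_cases h0 : x = 0
    · right
      exact h0
    · left
      by_contra h1
      apply hx
      rcases lt_or_gt_of_ne h1 with h2 | h2
      · exact Or.inl ⟨h0, h2⟩
      · exact Or.inr h2
  refine measure_mono_null hsub ?_
  rw [measure_union_null_iff]
  exact ⟨circle_null b, by simp⟩

/-- translation by a root -/
theorem J_shift {s : ℂ} (hs : s ^ 2 = b) :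
    J (-2 * a) (a ^ 2 - 4 * b) = J (a + 6 * s) (4 * s * (a + 2 * s)) := by
  unfold J
  rw [← lintegral_add_right_eq_self _ (a + 2 * s)]
  refine lintegral_congr fun x => ?_
  congr 3
  rw [← hs]
  ring

end Pool.Agent.L0h51.HG
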